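import Pool.Agent.TH152.CV.Sub
import Pool.Agent.W33.CG.FRE

/-!
Abelian covers of projective space with large exponents: subvarieties which are not of general type.
-/

set_option autoImplicit false

namespace Pool.Agent.TH152.CV

open FF Pool.Agent.W603.LV Pool.Agent.W602.GT Pool.Agent.W602.Cov Pool.Agent.W602.Cov.Cover
open Pool.Agent.W602.Cov.G
open Pool.Agent.W168.CG.PGR Pool.Agent.TH152.AC Pool.Agent.TH152.HY Pool.Agent.TH152.DS
open IntermediateField

/-- The linear span of the point `x` (over the field `K`) of projective space splits. -/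
def SplitK {n q r : ℕ} (X : Cover n q r) {K : Type} [Field K] [Algebra ℂ K]
    (x : Fin (n + 1) → K) : Prop :=
  ∃ V₁ V₂ : Submodule ℂ (Fin (n + 1) → ℂ), V₁ ⊓ V₂ = ⊥ ∧
    (∀ φ : Form n, V₁ ⊔ V₂ ≤ LinearMap.ker φ → lf φ x = 0) ∧
    (∃ φ : Form n, V₁ ≤ LinearMap.ker φ ∧ lf φ x ≠ 0) ∧
    (∃ φ : Form n, V₂ ≤ LinearMap.ker φ ∧ lf φ x ≠ 0) ∧
    ∀ k, (∃ i, 0 < X.e k i ∧ (∀ v ∈ V₁, X.ℓ i v = 0) ∧ (∀ v ∈ V₂, X.ℓ i v = 0)) ∨
      ∀ i, 0 < X.e k i → (∀ v ∈ V₁, X.ℓ i v = 0) ∨ (∀ v ∈ V₂, X.ℓ i v = 0)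

theorem exists_form_of {n : ℕ} {V V' : Submodule ℂ (Fin (n + 1) → ℂ)} (hc : V ⊓ V' = ⊥)
    (h : V' ≠ ⊥) : ∃ ψ : Form n, ψ ≠ 0 ∧ V ≤ LinearMap.ker ψ := by
  obtain ⟨v, hv, hv0⟩ := (Submodule.ne_bot_iff _).1 h
  have h1 : v ∉ V := by
    intro h1
    apply hv0
    have h2 : v ∈ V ⊓ V' := ⟨h1, hv⟩
    rw [hc] at h2
    exact h2
  obtain ⟨ψ, h2, h3⟩ := Submodule.exists_le_ker_of_notMem h1
  refine ⟨ψ, ?_, h3⟩
  rintro rfl
  exact h2 rfl

/-- **Subvarieties of abelian covers.** -/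
theorem dichotomy (n q : ℕ) : ∃ R : ℕ, 0 < R ∧ ∀ {r : ℕ} {X : Cover n q r}, Big X → X.Free →
    ∀ {K : Type} [Field K] [Algebra ℂ K] {w : ℕ} {x : Fin (n + 1) → K} {y : Fin r → K}, 1 ≤ w →
    PtK X x y → Algebra.IsAlgebraic (Pool.Agent.W602.GT.coords ℂ x) K →
    Algebra.trdeg ℂ K = w →
    SplitK X x ∨ (Effective K R w (fun _ => False) x ∧ GeneralType ℂ K w) := by
  classical
  have hch : ∀ n' q' : ℕ, ∃ R : ℕ, 0 < R ∧ (1 ≤ n' → ∀ {ℓ : Fin q' → Form n'},
      (∀ i, ℓ i ≠ 0) → ¬ Reducible ℓ → ∀ {m : ℕ}, n' * (n' + 1) * (n' + 2) < 2 * m →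
      ∀ {d : ℕ} {K : Type} [Field K] [Algebra ℂ K] {x : Fin (n' + 1) → K},
      LinearIndependent ℂ x → ∀ σ : Fin (d + 1) → Fin (n' + 1), x (σ 0) ≠ 0 →
      IsTranscendenceBasis ℂ (fun j : Fin d => x (σ j.succ) / x (σ 0)) →
      ∀ Bd : Place ℂ K → Prop,
      (∀ P : Place ℂ K, Divisorial d P → ¬ Bd P → HighAt ℓ x m P) →
      Effective K R d Bd x) := by
    intro n' q'
    by_cases h : 1 ≤ n'
    · obtain ⟨R, h1, h2⟩ := sub_uniform n' q' h
      exact ⟨R, h1, fun _ => h2⟩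
    · exact ⟨1, one_pos, fun h' => absurd h' h⟩
  choose Rf hRf hRf' using hch
  set R : ℕ := ∏ n' ∈ Finset.range (n + 1), ∏ q' ∈ Finset.range (q + 1), Rf n' q' with hRdef
  have hRpos : 0 < R := Finset.prod_pos fun n' _ => Finset.prod_pos fun q' _ => hRf n' q'
  refine ⟨R, hRpos, ?_⟩
  intro r X hB hF K _ _ w x y hw hP halg htr
  obtain ⟨n', A, S, z, hn', hSA, hli, hlf⟩ := exists_coords hP.ne
  have hAinj : ∀ v, A v = 0 → v = 0 := fun v hv => by rw [← hSA v, hv, map_zero]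
  have hφ0 : ∀ φ : Form n, lf φ x = 0 → ∀ v, φ (A v) = 0 := by
    intro φ h0 v
    rw [hlf] at h0
    by_contra hne
    have h1 : φ ∘ₗ A ≠ 0 := fun h => hne (by rw [← LinearMap.comp_apply, h, LinearMap.zero_apply])
    exact lf_ne_of_li hli h1 h0
  have hlfne : ∀ k, y k ≠ 0 → ∀ i, 0 < X.e k i → lf (X.ℓ i) x ≠ 0 := by
    intro k hk i hi h2
    have h3 := hP.mem k
    rw [Finset.prod_eq_zero (Finset.mem_univ i) (by rw [h2, zero_pow hi.ne'])] at h3
    exact hk (pow_eq_zero_iff (X.hm k).ne' |>.1 h3)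
  have hy0 : ∀ k, y k = 0 → ∃ i, 0 < X.e k i ∧ lf (X.ℓ i) x = 0 := by
    intro k hk
    have h2 := hP.mem k
    rw [hk, zero_pow (X.hm k).ne'] at h2
    obtain ⟨i, -, hi⟩ := Finset.prod_eq_zero_iff.1 h2.symm
    have h3 : X.e k i ≠ 0 := by
      intro h3
      rw [h3, pow_zero] at hi
      exact one_ne_zero hi
    exact ⟨i, Nat.pos_of_ne_zero h3, pow_eq_zero_iff h3 |>.1 hi⟩
  -- the hyperplanes in the equations which are not trivial
  obtain ⟨J, hJ⟩ : ∃ J : Finset (Fin q),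
      J = Finset.univ.filter fun i => ∃ k, 0 < X.e k i ∧ y k ≠ 0 := ⟨_, rfl⟩
  have hmemJ : ∀ i, i ∈ J ↔ ∃ k, 0 < X.e k i ∧ y k ≠ 0 := fun i => by rw [hJ]; simp
  obtain ⟨ε⟩ : Nonempty (Fin J.card ≃ J) := ⟨J.equivFin.symm⟩
  obtain ⟨ℓ, hℓdef⟩ : ∃ ℓ : Fin J.card → Form n', ℓ = fun i => X.ℓ (ε i).1 ∘ₗ A := ⟨_, rfl⟩
  have hℓ : ∀ i v, ℓ i v = X.ℓ (ε i).1 (A v) := fun i v => by rw [hℓdef]; rfl
  have hlfz : ∀ i, lf (ℓ i) z = lf (X.ℓ (ε i).1) x := by
    intro i
    rw [hℓdef, ← hlf]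
  have hJne : ∀ i ∈ J, lf (X.ℓ i) x ≠ 0 := by
    intro i hi
    obtain ⟨k, hk, hyk⟩ := (hmemJ i).1 hi
    exact hlfne k hyk i hk
  have hℓ0 : ∀ i, ℓ i ≠ 0 := by
    intro i h0
    have h1 := hlfz i
    rw [h0] at h1
    have h2 : lf (0 : Form n') z = 0 := by simp [lf]
    rw [h2] at h1
    exact hJne _ (ε i).2 h1.symm
  by_cases hred : Reducible ℓ
  · left
    obtain ⟨V1, V2, hV1, hV2, hcompl, hV⟩ := hred
    have hAi : Function.Injective A := fun u v h => by rw [← hSA u, h, hSA]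
    have hform : ∀ V V' : Submodule ℂ (Fin (n' + 1) → ℂ), V ⊓ V' = ⊥ → V' ≠ ⊥ →
        ∃ φ : Form n, V.map A ≤ LinearMap.ker φ ∧ lf φ x ≠ 0 := by
      intro V V' hc h
      obtain ⟨ψ, hψ0, hψ⟩ := exists_form_of hc h
      have h1 : (ψ ∘ₗ S) ∘ₗ A = ψ := by
        apply LinearMap.ext
        intro v
        change ψ (S (A v)) = ψ v
        rw [hSA]
      refine ⟨ψ ∘ₗ S, ?_, ?_⟩
      · rintro _ ⟨v, hv, rfl⟩
        change ψ (S (A v)) = 0
        rw [hSA]
        exact hψ hv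
      · rw [hlf, h1]
        exact lf_ne_of_li hli hψ0
    refine ⟨V1.map A, V2.map A, ?_, ?_, hform V1 V2 hcompl.inf_eq_bot hV2,
      hform V2 V1 (by rw [inf_comm]; exact hcompl.inf_eq_bot) hV1, fun k => ?_⟩
    · rw [← Submodule.map_inf A hAi, hcompl.inf_eq_bot, Submodule.map_bot]
    · intro φ hφ
      have h0 : φ ∘ₗ A = 0 := by
        apply LinearMap.ext
        intro u
        apply hφ
        rw [← Submodule.map_sup, hcompl.sup_eq_top]
        exact ⟨u, trivial, rfl⟩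
      rw [hlf, h0]
      simp [lf]
    · by_cases hk : y k = 0
      · obtain ⟨i, hi, hix⟩ := hy0 k hk
        left
        refine ⟨i, hi, ?_, ?_⟩
        · rintro _ ⟨v, -, rfl⟩
          exact hφ0 _ hix v
        · rintro _ ⟨v, -, rfl⟩
          exact hφ0 _ hix v
      · right
        intro i hi
        obtain ⟨j, hj⟩ := ε.surjective ⟨i, (hmemJ i).2 ⟨k, hi, hk⟩⟩
        have hj' : (ε j).1 = i := by rw [hj]
        rcases hV j with h | h
        · left
          rintro _ ⟨v, hv, rfl⟩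
          rw [← hj', ← hℓ]
          exact h v hv
        · right
          rintro _ ⟨v, hv, rfl⟩
          rw [← hj', ← hℓ]
          exact h v hv
  · right
    have hz0 : z 0 ≠ 0 := hli.ne_zero 0
    have hbs : ∀ j, x j = ∑ k, (LinearMap.proj j ∘ₗ A) (Pi.single k 1) • z k := by
      intro j
      have h1 := hlf (LinearMap.proj j)
      rw [lf_proj] at h1
      rw [h1, lf_eq_smul]
    have hsub : ∀ i, x i / z 0 ∈ adjoin ℂ (Set.range fun k => z k / z 0) := by
      intro i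
      rw [hbs i, Finset.sum_div]
      refine sum_mem fun k _ => ?_
      rw [smul_div_assoc, Algebra.smul_def]
      have h1 : z k / z 0 ∈ Set.range fun k => z k / z 0 := ⟨k, rfl⟩
      exact mul_mem (_root_.algebraMap_mem _ _) (subset_adjoin ℂ _ h1)
    have halg' : Algebra.IsAlgebraic (adjoin ℂ (Set.range fun k => z k / z 0)) K := by
      refine HY.alg_mono ?_ halg
      rw [adjoin_le_iff]
      rintro _ ⟨i, j, hj, rfl⟩
      have e : x i / x j = (x i / z 0) / (x j / z 0) := by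
        field_simp
      rw [e]
      exact div_mem (hsub i) (hsub j)
    obtain ⟨σ, hσ, hbas⟩ := exists_sigma hz0 halg' htr
    have hn1 : 1 ≤ n' := by
      by_contra h0
      obtain rfl : n' = 0 := by omega
      have j0 : Fin w := ⟨0, hw⟩
      apply hbas.1.transcendental j0
      have h2 : z (σ j0.succ) / z (σ 0) = 1 := by
        rw [Fin.eq_zero (σ j0.succ), Fin.eq_zero (σ 0)]
        exact div_self hz0
      change IsAlgebraic ℂ (z (σ j0.succ) / z (σ 0))
      rw [h2]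
      exact isAlgebraic_one
    obtain ⟨M, hM⟩ : ∃ M, M = n * (n + 1) * (n + 2) / 2 + 1 := ⟨_, rfl⟩
    have hm' : n' * (n' + 1) * (n' + 2) < 2 * M := by
      have h1 : n' * (n' + 1) * (n' + 2) ≤ n * (n + 1) * (n + 2) :=
        Nat.mul_le_mul (Nat.mul_le_mul hn' (by omega)) (by omega)
      omega
    have heff : Effective K (Rf n' J.card) w (fun _ => False) z := by
      refine hRf' n' J.card hn1 hℓ0 hred hm' hli σ hσ hbas _ fun P _ _ a v hv hv0 hsp => ?_
      obtain ⟨u, hu0, hu⟩ := Pool.Agent.W33.CG.FRE.exists_common ℓ {i | v i ≠ 0} hsp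
      obtain ⟨v', hv'⟩ : ∃ v' : Fin q → ℕ,
          v' = fun i => if h : i ∈ J then v (ε.symm ⟨i, h⟩) else 0 := ⟨_, rfl⟩
      have hv'ε : ∀ j, v' (ε j).1 = v j := by
        intro j
        rw [hv']
        simp only [dif_pos (ε j).2, Subtype.coe_eta, Equiv.symm_apply_apply]
      have hv'J : ∀ i, v' i ≠ 0 → ∃ j, (ε j).1 = i ∧ v j = v' i := by
        intro i hi
        by_cases h : i ∈ J
        · obtain ⟨j, hj⟩ := ε.surjective ⟨i, h⟩
          refine ⟨j, by rw [hj], ?_⟩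
          rw [← hv'ε, hj]
        · rw [hv'] at hi
          simp only [dif_neg h, ne_eq, not_true_eq_false] at hi
      have hcomp := compat hF hP P a v' (xb := A u) (fun h => hu0 (hAinj u h))
        (fun i hi => hφ0 _ hi u) (fun i hi => by
          obtain ⟨j, rfl, hj⟩ := hv'J i hi
          rw [← hℓ]
          exact hu j (by
            change v j ≠ 0
            rw [hj]
            exact hi)) (fun k hk i hi => by
          obtain ⟨j, hj⟩ := ε.surjective ⟨i, (hmemJ i).2 ⟨k, hi, hk⟩⟩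
          have hj' : (ε j).1 = i := by rw [hj]
          rw [← hj', ← hlfz, hv'ε]
          exact hv j)
      obtain ⟨j0, hj0⟩ := Function.ne_iff.1 hv0
      obtain ⟨k, hk, hyk⟩ := (hmemJ _).1 (ε j0).2
      obtain ⟨c, hc⟩ := hcomp k hyk
      have hsum0 : 0 < ∑ i, X.e k i * v' i := by
        refine lt_of_lt_of_le (Nat.mul_pos hk (Nat.pos_of_ne_zero ?_))
          (Finset.single_le_sum (f := fun i => X.e k i * v' i) (fun _ _ => Nat.zero_le _)
            (Finset.mem_univ (ε j0).1))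
        rw [hv'ε]
        exact hj0
      have hmk : X.m k ≤ ∑ i, X.e k i * v' i := by
        rw [hc]
        refine Nat.le_mul_of_pos_right _ ?_
        rcases Nat.eq_zero_or_pos c with h | h
        · rw [h, mul_zero] at hc
          omega
        · exact h
      have hex : ∃ i, n * (n + 1) * (n + 2) < 2 * v' i := by
        by_contra hcon
        push Not at hcon
        have h1 : 2 * ∑ i, X.e k i * v' i ≤ n * (n + 1) * (n + 2) * ∑ i, X.e k i := by
          rw [Finset.mul_sum, Finset.mul_sum]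
          refine Finset.sum_le_sum fun i _ => ?_
          calc 2 * (X.e k i * v' i) = X.e k i * (2 * v' i) := by ring
            _ ≤ X.e k i * (n * (n + 1) * (n + 2)) := Nat.mul_le_mul_left _ (hcon i)
            _ = n * (n + 1) * (n + 2) * X.e k i := mul_comm _ _
        have h2 := hB k
        omega
      obtain ⟨i, hi⟩ := hex
      obtain ⟨j, -, hj⟩ := hv'J i (by omega)
      exact ⟨j, by omega⟩
    have hdvd : Rf n' J.card ∣ R := by
      have h1 : J.card < q + 1 := by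
        have := J.card_le_univ
        rw [Fintype.card_fin] at this
        omega
      exact (Finset.dvd_prod_of_mem _ (Finset.mem_range.2 h1)).trans
        (Finset.dvd_prod_of_mem (fun n' => ∏ q' ∈ Finset.range (q + 1), Rf n' q')
          (Finset.mem_range.2 (by omega)))
    obtain ⟨e, he⟩ := hdvd
    have he0 : 0 < e := by
      rcases Nat.eq_zero_or_pos e with h | h
      · rw [h, mul_zero] at he
        omega
      · exact h
    refine ⟨?_, heff.general (hRf n' J.card) hσ hbas htr⟩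
    rw [he]
    exact (heff.pow hz0 he0).lin _ hbs

end Pool.Agent.TH152.CV
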