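import Pool.Agent.TH152.CV.Gm
import Pool.Agent.TH152.CV.Dich

/-!
Abelian covers of projective space with large exponents: the special sets.
-/

set_option autoImplicit false

namespace Pool.Agent.TH152.CV

open FF Pool.Agent.W603.LV Pool.Agent.W602.GT Pool.Agent.W602.Cov Pool.Agent.W602.Cov.Cover
open Pool.Agent.W602.Cov.G
open IntermediateField

variable {n q r : ℕ} (X : Cover n q r)

/-- The Zariski closure in `X` of the union of the closed subvarieties of `X` of positive dimension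
which are not of general type. -/
def SpAlg : Set ((Fin (n + 1) → ℂ) × (Fin r → ℂ)) :=
  {v | v ∈ X.Pts ∧ ∀ G : Poly n r, X.Hom G →
    (∀ (K : Type) [Field K] [Algebra ℂ K] (w : ℕ) (x : Fin (n + 1) → K) (y : Fin r → K), 1 ≤ w →
      SubVar X K w x y → ¬ GeneralType ℂ K w → evK x y G = 0) → ev v G = 0}

variable {X}

/-- a linear form as a polynomial -/
noncomputable def lpoly (n r : ℕ) (φ : Form n) : Poly n r :=
  ∑ j, MvPolynomial.C (φ (Pi.single j 1)) * MvPolynomial.X (Sum.inl j)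

theorem evK_lpoly {K : Type} [Field K] [Algebra ℂ K] (φ : Form n) (x : Fin (n + 1) → K)
    (y : Fin r → K) : evK x y (lpoly n r φ) = lf φ x := by
  unfold evK lpoly lf
  rw [map_sum]
  refine Finset.sum_congr rfl fun j _ => ?_
  rw [map_mul, MvPolynomial.aeval_C, MvPolynomial.aeval_X]
  rfl

theorem ev_lpoly (φ : Form n) (v : (Fin (n + 1) → ℂ) × (Fin r → ℂ)) :
    ev v (lpoly n r φ) = φ v.1 := by
  unfold ev lpoly
  rw [map_sum, LinearMap.pi_apply_eq_sum_univ φ]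
  refine Finset.sum_congr rfl fun j _ => ?_
  rw [map_mul, MvPolynomial.eval_C, MvPolynomial.eval_X, smul_eq_mul, mul_comm]
  change v.1 j * _ = v.1 j * _
  congr 2
  funext k
  simp [Pi.single_apply, eq_comm]

/-- the equations as polynomials -/
noncomputable def epoly (X : Cover n q r) (k : Fin r) : Poly n r :=
  MvPolynomial.X (Sum.inr k) ^ X.m k - ∏ i, lpoly n r (X.ℓ i) ^ X.e k i

theorem evK_epoly {K : Type} [Field K] [Algebra ℂ K] (k : Fin r) (x : Fin (n + 1) → K)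
    (y : Fin r → K) :
    evK x y (epoly X k) = y k ^ X.m k - ∏ i, lf (X.ℓ i) x ^ X.e k i := by
  have h1 : ∀ φ : Form n, MvPolynomial.aeval (Sum.elim x y) (lpoly n r φ) = lf φ x :=
    fun φ => evK_lpoly φ x y
  unfold evK epoly
  rw [map_sub, map_pow, MvPolynomial.aeval_X, map_prod]
  congr 1
  exact Finset.prod_congr rfl fun i _ => by rw [map_pow, h1]

theorem ev_epoly (k : Fin r) (v : (Fin (n + 1) → ℂ) × (Fin r → ℂ)) :
    ev v (epoly X k) = v.2 k ^ X.m k - ∏ i, X.ℓ i v.1 ^ X.e k i := by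
  have h1 : ∀ φ : Form n, MvPolynomial.eval (Sum.elim v.1 v.2) (lpoly n r φ) = φ v.1 :=
    fun φ => ev_lpoly φ v
  unfold ev epoly
  rw [map_sub, map_pow, MvPolynomial.eval_X, map_prod]
  congr 1
  exact Finset.prod_congr rfl fun i _ => by rw [map_pow, h1]

/-- a point of the span of split subspaces is split -/
theorem split_of_mem {V₁ V₂ : Submodule ℂ (Fin (n + 1) → ℂ)} (h1 : V₁ ⊓ V₂ = ⊥)
    (h5 : ∀ k, (∃ i, 0 < X.e k i ∧ (∀ v ∈ V₁, X.ℓ i v = 0) ∧ (∀ v ∈ V₂, X.ℓ i v = 0)) ∨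
      ∀ i, 0 < X.e k i → (∀ v ∈ V₁, X.ℓ i v = 0) ∨ (∀ v ∈ V₂, X.ℓ i v = 0))
    {v : (Fin (n + 1) → ℂ) × (Fin r → ℂ)} (hv : v ∈ X.Pts) (hm : v.1 ∈ V₁ ⊔ V₂)
    (hv1 : v.1 ∉ V₁) (hv2 : v.1 ∉ V₂) : X.Split v := by
  obtain ⟨a, haV, b, hbV, hab⟩ := Submodule.mem_sup.1 hm
  have ha0 : a ≠ 0 := by
    rintro rfl
    rw [zero_add] at hab
    exact hv2 (hab ▸ hbV)
  have hb0 : b ≠ 0 := by
    rintro rfl
    rw [add_zero] at hab
    exact hv1 (hab ▸ haV)
  refine ⟨hv, a, b, ?_, hab.symm, fun k => ?_⟩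
  · rw [LinearIndependent.pair_iff]
    intro c c' hcc
    have h6 : c • a ∈ V₁ ⊓ V₂ := by
      refine ⟨V₁.smul_mem _ haV, ?_⟩
      have h7 : c • a = -(c' • b) := by
        rw [eq_neg_iff_add_eq_zero]
        exact hcc
      rw [h7]
      exact V₂.neg_mem (V₂.smul_mem _ hbV)
    rw [h1, Submodule.mem_bot] at h6
    have h7 : c' • b = 0 := by
      rw [h6, zero_add] at hcc
      exact hcc
    exact ⟨(smul_eq_zero.1 h6).resolve_right ha0, (smul_eq_zero.1 h7).resolve_right hb0⟩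
  · rcases h5 k with ⟨i, hi, h6, h7⟩ | h6
    · exact Or.inl ⟨i, hi, h6 a haV, h7 b hbV⟩
    · right
      intro i hi
      rcases h6 i hi with h7 | h7
      · exact Or.inl (h7 a haV)
      · exact Or.inr (h7 b hbV)

/-- **Specialization.** -/
theorem spec_split {K : Type} [Field K] [Algebra ℂ K] {x : Fin (n + 1) → K} {y : Fin r → K}
    (hP : PtK X x y) (hS : SplitK X x) {G : Poly n r} (hG : ∀ u, X.Split u → ev u G = 0) :
    evK x y G = 0 := by
  obtain ⟨V₁, V₂, h1, h2, ⟨φ, hφ1, hφ2⟩, ⟨ψ, hψ1, hψ2⟩, h5⟩ := hS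
  obtain ⟨p, hp⟩ : ∃ p : Ideal (Poly n r),
      p = RingHom.ker (MvPolynomial.aeval (Sum.elim x y) : Poly n r →ₐ[ℂ] K) := ⟨_, rfl⟩
  have hmem : ∀ H : Poly n r, H ∈ p ↔ evK x y H = 0 := by
    intro H
    rw [hp, RingHom.mem_ker]
    rfl
  have hprime : p.IsPrime := by
    rw [hp]
    exact RingHom.ker_isPrime _
  have key : lpoly n r φ * (lpoly n r ψ * G) ∈ p := by
    have h3 := MvPolynomial.vanishingIdeal_zeroLocus_eq_radical (K := ℂ) p
    rw [hprime.radical] at h3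
    rw [← h3, MvPolynomial.mem_vanishingIdeal_iff]
    intro z hz
    rw [MvPolynomial.mem_zeroLocus_iff] at hz
    obtain ⟨v, rfl⟩ : ∃ v : (Fin (n + 1) → ℂ) × (Fin r → ℂ), z = Sum.elim v.1 v.2 :=
      ⟨(fun j => z (Sum.inl j), fun k => z (Sum.inr k)), by
        funext i
        rcases i with j | k <;> rfl⟩
    have hev : ∀ H : Poly n r, MvPolynomial.aeval (Sum.elim v.1 v.2) H = ev v H := fun H => by
      unfold ev
      rw [MvPolynomial.aeval_eq_eval]
    rw [map_mul, map_mul, hev, hev, hev, ev_lpoly, ev_lpoly]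
    by_cases ha : φ v.1 = 0
    · rw [ha, zero_mul]
    by_cases hb : ψ v.1 = 0
    · rw [hb, zero_mul, mul_zero]
    have hv1 : v.1 ∉ V₁ := fun h => ha (hφ1 h)
    have hv2 : v.1 ∉ V₂ := fun h => hb (hψ1 h)
    have hv : v ∈ X.Pts := by
      refine ⟨fun h0 => hv1 (h0 ▸ V₁.zero_mem), fun k => ?_⟩
      have h6 : epoly X k ∈ p := by
        rw [hmem, evK_epoly, hP.mem k, sub_self]
      have h7 := hz _ h6
      rw [hev, ev_epoly] at h7
      exact sub_eq_zero.1 h7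
    have hm : v.1 ∈ V₁ ⊔ V₂ := by
      by_contra hcon
      obtain ⟨θ, hθ1, hθ2⟩ := Submodule.exists_le_ker_of_notMem hcon
      have h6 : lpoly n r θ ∈ p := by
        rw [hmem, evK_lpoly]
        exact h2 θ hθ2
      have h7 := hz _ h6
      rw [hev, ev_lpoly] at h7
      exact hθ1 h7
    rw [hG v (split_of_mem h1 h5 hv hm hv1 hv2), mul_zero, mul_zero]
  rw [hmem, evK_mul, evK_mul, evK_lpoly, evK_lpoly] at key
  rcases mul_eq_zero.1 key with h | h
  · exact absurd h hφ2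
  · exact (mul_eq_zero.1 h).resolve_left hψ2

/-- entire curves -/
theorem spH_sub (hB : Big X) : X.SpH ⊆ X.SpSplit := by
  classical
  rintro v ⟨hv, h⟩
  refine ⟨hv, fun G hG hE => h G hG ?_⟩
  intro x y hxy
  obtain ⟨V₁, V₂, h1, h2, ⟨z1, h3⟩, ⟨z2, h4⟩, h5⟩ := curve_split hB hxy
  obtain ⟨φ, hφ1, hφ2⟩ := Submodule.exists_le_ker_of_notMem h3
  obtain ⟨ψ, hψ1, hψ2⟩ := Submodule.exists_le_ker_of_notMem h4
  have key : ∀ z, φ (x z) * (ψ (x z) * ev (x z, y z) G) = 0 := by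
    intro z
    by_cases ha : φ (x z) = 0
    · rw [ha, zero_mul]
    by_cases hb : ψ (x z) = 0
    · rw [hb, zero_mul, mul_zero]
    rw [hE _ (split_of_mem h1 h5 (hxy.mem z) (h2 z) (fun h => ha (hφ2 h)) fun h => hb (hψ2 h)),
      mul_zero, mul_zero]
  have hφd : Differentiable ℂ fun z => φ (x z) := Pool.Agent.W602.Cov.form_diff hxy.diffx φ
  have hψd : Differentiable ℂ fun z => ψ (x z) := Pool.Agent.W602.Cov.form_diff hxy.diffx ψ
  have hGd := Pool.Agent.W602.Cov.Cover.ev_diff hxy.diffx hxy.diffy G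
  rcases Pool.Agent.H159R3.NV.ent_eq_zero_or hφd (hψd.mul hGd) key with h6 | h6
  · exact absurd (congrFun h6 z1) hφ1
  · rcases Pool.Agent.H159R3.NV.ent_eq_zero_or hψd hGd (fun z => congrFun h6 z) with h7 | h7
    · exact absurd (congrFun h7 z2) hψ1
    · exact fun z => congrFun h7 z

/-- subvarieties not of general type -/
theorem spAlg_sub (hB : Big X) (hF : X.Free) : SpAlg X ⊆ X.SpSplit := by
  rintro v ⟨hv, h⟩
  refine ⟨hv, fun G hG hE => h G hG ?_⟩
  intro K _ _ w x y hw hV hgt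
  obtain ⟨R, -, hR⟩ := dichotomy n q
  rcases hR hB hF hw hV.pt (alg_of_gen hV.pt hV.gen) hV.dim with h1 | ⟨-, h1⟩
  · exact spec_split hV.pt h1 hE
  · exact absurd h1 hgt

theorem spGm_sub_alg (hF : X.Free) : X.SpGm ⊆ SpAlg X := by
  rintro v ⟨hv, h⟩
  refine ⟨hv, fun G hG hE => h G hG ?_⟩
  intro P Q hPQ t _
  obtain ⟨K, _, _, x, y, hV, hgt, hG'⟩ := sub_of_gm hF hPQ
  exact hG' G hG (hE K 1 x y le_rfl hV hgt) t

/-- **The special sets.** -/
theorem special (hB : Big X) (hF : X.Free) :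
    SpAlg X = X.SpSplit ∧ X.SpH = X.SpSplit ∧ X.SpGm = X.SpSplit :=
  ⟨Set.Subset.antisymm (spAlg_sub hB hF) (X.spSplit_sub.trans (spGm_sub_alg hF)),
    Set.Subset.antisymm (spH_sub hB) (X.spSplit_sub.trans X.spGm_sub),
    Set.Subset.antisymm (X.spGm_sub.trans (spH_sub hB)) X.spSplit_sub⟩

end Pool.Agent.TH152.CV
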