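import Pool.Agent.TH152.CV.Hyp

/-!
Abelian covers of projective space with large exponents: the set swept out by the rational curves.
-/

set_option autoImplicit false

namespace Pool.Agent.TH152.CV

open Pool.Agent.W602.Cov Pool.Agent.W602.Cov.Cover Pool.Agent.W602.Cov.G

variable {n q r : ℕ}

/-- The Zariski closure in `X` of the union of the images of the nonconstant morphisms from the
affine line. -/
def SpRat (X : Cover n q r) : Set ((Fin (n + 1) → ℂ) × (Fin r → ℂ)) :=
  {v | v ∈ X.Pts ∧ ∀ G : Poly n r, X.Hom G →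
    (∀ P Q, RatCurve X P Q → ∀ t, ev (at' P Q t) G = 0) → ev v G = 0}

variable {X : Cover n q r}

/-- every split point lies on a rational curve -/
theorem rat_through {u : (Fin (n + 1) → ℂ) × (Fin r → ℂ)} (hu : X.Split u) :
    ∃ P Q, RatCurve X P Q ∧ at' P Q 1 = u := by
  obtain ⟨x1, x2, D, N, a, b, hli, hsum, hN, hBN, hab, hF⟩ := split_family hu 0
  obtain ⟨φ, ψ, h1, h2, h3, h4⟩ := exists_dual hli
  let P : Fin (n + 1) → Polynomial ℂ := fun j =>
    Polynomial.X ^ N * Polynomial.C (x1 j) + Polynomial.C (x2 j)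
  let Q : Fin r → Polynomial ℂ := fun k => Polynomial.C (u.2 k) * Polynomial.X ^ a k
  have hP : ∀ t : ℂ, (at' P Q t).1 = t ^ N • x1 + x2 := by
    intro t
    funext j
    change (Polynomial.X ^ N * Polynomial.C (x1 j) + Polynomial.C (x2 j)).eval t = _
    simp only [Polynomial.eval_add, Polynomial.eval_mul, Polynomial.eval_pow, Polynomial.eval_X,
      Polynomial.eval_C, Pi.add_apply, Pi.smul_apply, smul_eq_mul]
  have hQ : ∀ (t : ℂ) k, (at' P Q t).2 k = u.2 k * t ^ a k := by
    intro t k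
    change (Polynomial.C (u.2 k) * Polynomial.X ^ a k).eval t = _
    simp
  refine ⟨P, Q, ⟨fun t => ⟨fun h0 => ?_, fun k => ?_⟩, 1, 2, ?_⟩, ?_⟩
  · rw [hP] at h0
    have h5 := congrArg ψ h0
    rw [map_add, map_smul, h3, h4, map_zero, smul_zero, zero_add] at h5
    exact one_ne_zero h5
  · have h5 := hF ℂ t 1 k
    rw [one_pow, mul_one] at h5
    rw [hQ, hP]
    refine h5.trans (Finset.prod_congr rfl fun i _ => ?_)
    rw [lf_comb]
    simp
  · rintro ⟨s, -, hs, -⟩
    rw [hP, hP] at hs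
    have h5 := congrArg ψ hs
    have h6 := congrArg φ hs
    simp only [map_add, map_smul, h1, h2, h3, h4, smul_eq_mul, mul_zero, zero_add, add_zero,
      mul_one, one_pow] at h5 h6
    rw [← h5] at h6
    have h3 : (2 : ℕ) ^ N = 1 := by exact_mod_cast h6
    have h4 : 1 < 2 ^ N := Nat.one_lt_two_pow (by omega)
    omega
  · refine Prod.ext ?_ ?_
    · rw [hP, one_pow, one_smul, hsum]
    · funext k
      rw [hQ, one_pow, mul_one]

theorem spSplit_sub_rat : X.SpSplit ⊆ SpRat X := by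
  rintro v ⟨hv, h⟩
  refine ⟨hv, fun G hG hE => h G hG ?_⟩
  intro u hu
  obtain ⟨P, Q, hPQ, h1⟩ := rat_through hu
  rw [← h1]
  exact hE P Q hPQ 1

theorem rat_sub_spH : SpRat X ⊆ X.SpH := by
  rintro v ⟨hv, h⟩
  refine ⟨hv, fun G hG hE => h G hG ?_⟩
  intro P Q hPQ t
  have hx : X.EntireCurve (fun z j => (P j).eval z) (fun z k => (Q k).eval z) :=
    ⟨fun j => (P j).differentiable, fun k => (Q k).differentiable, hPQ.mem, hPQ.nonconst⟩
  exact hE _ _ hx t

/-- **The special sets.** -/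
theorem special' (hB : Big X) (hF : X.Free) :
    X.SpGm = SpAlg X ∧ X.SpH = SpAlg X ∧ SpRat X = SpAlg X ∧ X.SpSplit = SpAlg X := by
  obtain ⟨h1, h2, h3⟩ := special hB hF
  refine ⟨by rw [h1, h3], by rw [h1, h2], ?_, h1.symm⟩
  rw [h1]
  exact Set.Subset.antisymm (rat_sub_spH.trans h2.subset) spSplit_sub_rat

end Pool.Agent.TH152.CV
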