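import Pool.Agent.TH152.CV.Special
import Pool.Agent.W602.Cov.GAll

/-!
Abelian covers of projective space with large exponents: general type and the special sets.
-/

set_option autoImplicit false

namespace Pool.Agent.TH152.CV

open FF Pool.Agent.W603.LV Pool.Agent.W602.GT Pool.Agent.W602.Cov Pool.Agent.W602.Cov.Cover
open Pool.Agent.W602.Cov.G

variable {n q r : ℕ} {X : Cover n q r}

theorem reducible_of_zero {ℓ : Fin q → Form n} {v w : Fin (n + 1) → ℂ} (hv : v ≠ 0)
    (hw : w ∉ Submodule.span ℂ {v}) (h : ∀ i, ℓ i v = 0) : Reducible ℓ := by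
  obtain ⟨C, hC⟩ := Submodule.exists_isCompl (Submodule.span ℂ {v})
  refine ⟨Submodule.span ℂ {v}, C, ?_, ?_, hC, fun i => Or.inl fun x hx => ?_⟩
  · rw [Ne, Submodule.span_singleton_eq_bot]
    exact hv
  · rintro rfl
    have h1 := hC.sup_eq_top
    rw [sup_bot_eq] at h1
    rw [h1] at hw
    exact hw trivial
  · obtain ⟨c, rfl⟩ := Submodule.mem_span_singleton.1 hx
    rw [map_smul, h i, smul_zero]

/-- the split points are not dense if the arrangement is not reducible -/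
theorem split_proper (hirr : ¬ Reducible X.ℓ) (hU : ∀ i, ∃ k, 0 < X.e k i) :
    X.SpSplit ≠ X.Pts := by
  classical
  have hlam : ∀ κ : Finset (Fin q), ∃ φ : Form n, φ ≠ 0 ∧
      (κ.Nonempty → κ ≠ Finset.univ → Flat X.ℓ κ ⊔ Flat X.ℓ κᶜ ≤ LinearMap.ker φ) := by
    intro κ
    by_cases hκ : κ.Nonempty ∧ κ ≠ Finset.univ
    · obtain ⟨φ, h1, h2⟩ := Submodule.exists_le_ker_of_lt_top _
        (lt_top_iff_ne_top.mpr (flat_ne_top X.hℓ hirr hκ.1 hκ.2))
      exact ⟨φ, h1, fun _ _ => h2⟩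
    · refine ⟨LinearMap.proj 0, ?_, fun h1 h2 => absurd ⟨h1, h2⟩ hκ⟩
      intro h0
      have := congrArg (fun f : Form n => f (Pi.single 0 1)) h0
      simp at this
  choose lam hlam0 hlam using hlam
  let G : Poly n r := lin r (LinearMap.proj 0) * ((∏ i, lin r (X.ℓ i)) *
    ∏ κ : Finset (Fin q), lin r (lam κ))
  have hp0 : (LinearMap.proj 0 : Form n) ≠ 0 := by
    intro h0
    have := congrArg (fun f : Form n => f (Pi.single 0 1)) h0
    simp at this
  have hG0 : G ≠ 0 := mul_ne_zero (lin_ne hp0) (mul_ne_zero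
    (Finset.prod_ne_zero_iff.mpr fun i _ => lin_ne (X.hℓ i))
    (Finset.prod_ne_zero_iff.mpr fun κ _ => lin_ne (hlam0 κ)))
  have hGev : ∀ v : (Fin (n + 1) → ℂ) × (Fin r → ℂ), ev v G
      = v.1 0 * ((∏ i, X.ℓ i v.1) * ∏ κ : Finset (Fin q), lam κ v.1) := by
    intro v
    simp only [G, ev_mul, ev_prod, ev_lin]
    rfl
  have hGhom : X.Hom G := ⟨_, (X.lin_hom _).mul
    ((MvPolynomial.IsWeightedHomogeneous.prod _ _ _ fun i _ => X.lin_hom _).mul
      (MvPolynomial.IsWeightedHomogeneous.prod _ _ _ fun κ _ => X.lin_hom _))⟩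
  obtain ⟨v, hv, hvG⟩ : ∃ v ∈ X.Pts, ev v G ≠ 0 := by
    have h1 : ∃ u : Fin (n + 1) ⊕ Fin r → ℂ, MvPolynomial.eval u G ≠ 0 := by
      by_contra hcon
      push Not at hcon
      exact hG0 (MvPolynomial.funext fun u => by rw [hcon u, map_zero])
    obtain ⟨u, hu⟩ := h1
    set x : Fin (n + 1) → ℂ := fun j => u (Sum.inl j) with hx
    have hu2 : ev (x, fun k => u (Sum.inr k)) G ≠ 0 := by
      unfold ev
      have : Sum.elim x (fun k => u (Sum.inr k)) = u := by
        funext j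
        cases j <;> rfl
      rw [this]
      exact hu
    rw [hGev] at hu2
    have hroot : ∀ k, ∃ t : ℂ, t ^ X.m k = ∏ i, X.ℓ i x ^ X.e k i := fun k =>
      IsAlgClosed.exists_pow_nat_eq _ (X.hm k)
    choose t ht using hroot
    refine ⟨(x, t), ⟨?_, ht⟩, by rw [hGev]; exact hu2⟩
    rintro h0
    apply hu2
    change x = 0 at h0
    rw [h0]
    simp
  intro heq
  have hvS : v ∈ X.SpSplit := heq ▸ hv
  apply hvG
  refine hvS.2 G hGhom fun u hu => ?_
  rw [hGev]
  obtain ⟨huP, x₁, x₂, hli, hsum, hk⟩ := hu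
  by_cases hne : ∀ i, X.ℓ i u.1 ≠ 0
  · have hpair := LinearIndependent.pair_iff.1 hli
    have hor : ∀ i, X.ℓ i x₁ = 0 ∨ X.ℓ i x₂ = 0 := by
      intro i
      obtain ⟨k, hki⟩ := hU i
      rcases hk k with ⟨i', -, h1, h2⟩ | h1
      · exact absurd (by rw [hsum, map_add, h1, h2, add_zero]) (hne i')
      · exact h1 i hki
    have hx1 : x₁ ≠ 0 := by
      rintro rfl
      exact one_ne_zero (hpair 1 0 (by rw [one_smul, zero_smul, add_zero])).1
    have hx2 : x₂ ≠ 0 := by
      rintro rfl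
      exact one_ne_zero (hpair 0 1 (by rw [one_smul, zero_smul, add_zero])).2
    have hs1 : x₂ ∉ Submodule.span ℂ {x₁} := by
      rw [Submodule.mem_span_singleton]
      rintro ⟨c, hc⟩
      exact one_ne_zero (hpair (-c) 1 (by rw [one_smul, neg_smul, hc, neg_add_cancel])).2
    have hs2 : x₁ ∉ Submodule.span ℂ {x₂} := by
      rw [Submodule.mem_span_singleton]
      rintro ⟨c, hc⟩
      exact one_ne_zero (hpair 1 (-c) (by rw [one_smul, neg_smul, hc, add_neg_cancel])).1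
    obtain ⟨κ, hκ⟩ : ∃ κ : Finset (Fin q), κ = Finset.univ.filter fun i => X.ℓ i x₁ = 0 :=
      ⟨_, rfl⟩
    have hmem : ∀ i, i ∈ κ ↔ X.ℓ i x₁ = 0 := fun i => by rw [hκ]; simp
    have hκ1 : κ.Nonempty := by
      by_contra hcon
      rw [Finset.not_nonempty_iff_eq_empty] at hcon
      apply hirr
      refine reducible_of_zero hx2 hs2 fun i => (hor i).resolve_left fun h => ?_
      have h2 := (hmem i).2 h
      rw [hcon] at h2
      exact absurd h2 (Finset.notMem_empty i)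
    have hκ2 : κ ≠ Finset.univ := by
      intro hcon
      apply hirr
      refine reducible_of_zero hx1 hs1 fun i => (hmem i).1 ?_
      rw [hcon]
      exact Finset.mem_univ i
    have h1 : x₁ ∈ Flat X.ℓ κ := mem_flat.mpr fun i hi => (hmem i).1 hi
    have h2 : x₂ ∈ Flat X.ℓ κᶜ := mem_flat.mpr fun i hi =>
      (hor i).resolve_left fun h => (Finset.mem_compl.1 hi) ((hmem i).2 h)
    have h3 : lam κ u.1 = 0 := by
      rw [hsum]
      exact hlam κ hκ1 hκ2 (Submodule.add_mem_sup h1 h2)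
    rw [Finset.prod_eq_zero (Finset.mem_univ κ) h3, mul_zero, mul_zero]
  · push Not at hne
    obtain ⟨i, hi⟩ := hne
    rw [Finset.prod_eq_zero (Finset.mem_univ i) hi, zero_mul, mul_zero]

/-- the split points are dense if the arrangement is reducible -/
theorem split_dense (hred : Reducible X.ℓ) {K : Type} [Field K] [Algebra ℂ K]
    {x : Fin (n + 1) → K} {y : Fin r → K} (hK : X.FunctionField K x y) :
    X.SpSplit = X.Pts := by
  obtain ⟨h1, -, h3, h4⟩ := Pool.Agent.W352.CG.TRA.main n q r X K x y hK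
  obtain ⟨V₁, V₂, hV1, hV2, hc, hℓ⟩ := hred
  refine Set.Subset.antisymm (fun v hv => hv.1) fun v hv => ⟨hv, fun G hG hE => ?_⟩
  obtain ⟨φ, hφ0, hφ⟩ := exists_form_of hc.inf_eq_bot hV2
  obtain ⟨ψ, hψ0, hψ⟩ := exists_form_of (V := V₂) (V' := V₁)
    (by rw [inf_comm]; exact hc.inf_eq_bot) hV1
  obtain ⟨D, hD⟩ := hG
  have hall : ∀ u ∈ X.Pts, ev u (lin r φ * (lin r ψ * G)) = 0 := by
    intro u hu
    rw [ev_mul, ev_mul, ev_lin, ev_lin]
    by_cases ha : φ u.1 = 0
    · rw [ha, zero_mul]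
    by_cases hb : ψ u.1 = 0
    · rw [hb, zero_mul, mul_zero]
    have hu1 : u.1 ∉ V₁ := fun h => ha (hφ h)
    have hu2 : u.1 ∉ V₂ := fun h => hb (hψ h)
    rw [hE u (split_of_mem hc.inf_eq_bot (fun k => Or.inr fun i _ => hℓ i) hu
      (by rw [hc.sup_eq_top]; trivial) hu1 hu2), mul_zero, mul_zero]
  have h5 := (hK.van _ _ ((X.lin_hom φ).mul ((X.lin_hom ψ).mul hD))).2 hall
  have hlin : ∀ θ : Form n, evK x y (lin r θ) = lf θ x := fun θ => evK_lpoly θ x y
  rw [evK_mul, evK_mul, hlin, hlin] at h5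
  have h6 : evK x y G = 0 := by
    rcases mul_eq_zero.1 h5 with h | h
    · exact absurd h (h1 φ hφ0)
    · exact (mul_eq_zero.1 h).resolve_left (h1 ψ hψ0)
  exact (hK.van G D hD).1 h6 v hv

/-- the function field as the function field of a subvariety -/
theorem subVar_of_functionField {K : Type} [Field K] [Algebra ℂ K] {x : Fin (n + 1) → K}
    {y : Fin r → K} (hK : X.FunctionField K x y) : SubVar X K n x y := by
  obtain ⟨h1, -, h3, h4⟩ := Pool.Agent.W352.CG.TRA.main n q r X K x y hK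
  have h5 := Pool.Agent.W216.CG.TRB.main Pool.Agent.W337.CG.main n q r X K x y hK h4 h3
  refine ⟨fun h0 => h3 (by rw [h0]; rfl), Pool.Agent.W337.CG.main n q r X K x y hK, hK.gen, ?_⟩
  have h6 := h5.cardinalMk_eq_trdeg
  rw [Cardinal.mk_fin] at h6
  exact h6.symm

/-- **General type and the special sets.** -/
theorem gen_tfae (hn : 1 ≤ n) (hB : Big X) (hF : X.Free) (hU : ∀ i, ∃ k, 0 < X.e k i)
    {K : Type} [Field K] [Algebra ℂ K] {x : Fin (n + 1) → K} {y : Fin r → K}
    (hK : X.FunctionField K x y) :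
    [GeneralType ℂ K n, ¬ Reducible X.ℓ, SpAlg X ≠ X.Pts, X.SpGm ≠ X.Pts, X.SpH ≠ X.Pts].TFAE := by
  obtain ⟨h1, h2, h3⟩ := special hB hF
  rw [h1, h2, h3]
  tfae_have 1 → 2 := fun h hred => not_generalType X hF hK hred h
  tfae_have 2 → 1 := by
    intro h
    have hV := subVar_of_functionField hK
    obtain ⟨hl, -, -, -⟩ := Pool.Agent.W352.CG.TRA.main n q r X K x y hK
    obtain ⟨R, -, hR⟩ := dichotomy n q
    rcases hR hB hF hn hV.pt (alg_of_gen hV.pt hV.gen) hV.dim with h1 | ⟨-, h1⟩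
    · exfalso
      apply h
      obtain ⟨V₁, V₂, h1, h2, ⟨φ, hφ1, hφ2⟩, ⟨ψ, hψ1, hψ2⟩, h5⟩ := h1
      have htop : V₁ ⊔ V₂ = ⊤ := by
        by_contra hcon
        obtain ⟨θ, h6, h7⟩ := Submodule.exists_le_ker_of_lt_top _ (lt_top_iff_ne_top.2 hcon)
        exact hl θ h6 (h2 θ h7)
      refine ⟨V₁, V₂, ?_, ?_, ⟨disjoint_iff.2 h1, codisjoint_iff.2 htop⟩, fun i => ?_⟩
      · rintro rfl
        exact hψ2 (h2 ψ (by rw [bot_sup_eq]; exact hψ1))
      · rintro rfl
        exact hφ2 (h2 φ (by rw [sup_bot_eq]; exact hφ1))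
      · obtain ⟨k, hki⟩ := hU i
        rcases h5 k with ⟨i', -, h6, h7⟩ | h6
        · exfalso
          apply X.hℓ i'
          apply LinearMap.ext
          intro v
          obtain ⟨a, ha, b, hb, rfl⟩ := Submodule.mem_sup.1 (show v ∈ V₁ ⊔ V₂ by rw [htop]; trivial)
          rw [map_add, h6 a ha, h7 b hb, add_zero]
          rfl
        · exact h6 i hki
    · exact h1
  tfae_have 2 → 3 := fun h => split_proper h hU
  tfae_have 3 → 2 := fun h hred => h (split_dense hred hK)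
  tfae_have 3 → 4 := id
  tfae_have 4 → 5 := id
  tfae_have 5 → 3 := id
  tfae_finish

end Pool.Agent.TH152.CV
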