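import Pool.Agent.TH152.CV.Gen
import Pool.Agent.TH152.DS.UniD
import Pool.Agent.TH152.HY.Brody

/-!
Abelian covers of projective space with large multiplicities: general type and the special sets.
-/

set_option autoImplicit false

namespace Pool.Agent.TH152.CV

open FF Pool.Agent.W603.LV Pool.Agent.W602.GT Pool.Agent.W602.Cov Pool.Agent.W602.Cov.Cover
open Pool.Agent.W602.Cov.G Pool.Agent.TH152.DS Pool.Agent.TH152.HY
open IntermediateField

variable {n q r : ℕ} {X : Cover n q r}

/-- subvarieties outside of the exceptional set are of general type -/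
theorem sub_general {m : ℕ} (hn : 1 ≤ n) (hm : n * (n + 1) * (n + 2) < 2 * m)
    (hR : Pool.Agent.TH152.AC.Mult X m) (hF : X.Free) (hirr : ¬ Reducible X.ℓ)
    {K : Type} [Field K] [Algebra ℂ K] {w : ℕ} {x : Fin (n + 1) → K} {y : Fin r → K} (hw : 1 ≤ w)
    (hV : SubVar X K w x y) (hl : ∀ i, lf (X.ℓ i) x ≠ 0)
    (hflat : ∀ κ : Finset (Fin q), κ.Nonempty → κ ≠ Finset.univ →
      ∃ φ : Form n, Flat X.ℓ κ ⊔ Flat X.ℓ κᶜ ≤ LinearMap.ker φ ∧ lf φ x ≠ 0) :
    GeneralType ℂ K w := by
  classical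
  obtain ⟨R, hR0, hmain⟩ := sub_uniform' n q hn
  have halg := alg_of_gen hV.pt hV.gen
  have heff := hmain hirr hm hw hV.ne hl hflat hV.dim halg (fun _ => False)
    (fun P _ _ a v hge hi hv hv0 => by
      obtain ⟨i0, hi0⟩ := hi
      let W : Submodule ℂ (Form n) :=
        { carrier := {φ | Ge P (a + 1) (lf φ x)}
          add_mem' := by
            intro φ ψ hφ hψ
            have e : lf (φ + ψ) x = lf φ x + lf ψ x := by
              unfold lf
              rw [← Finset.sum_add_distrib]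
              refine Finset.sum_congr rfl fun j _ => ?_
              rw [LinearMap.add_apply, map_add]
              ring
            change Ge P (a + 1) (lf (φ + ψ) x)
            rw [e]
            exact Ge.add hφ hψ
          zero_mem' := by
            change Ge P (a + 1) (lf (0 : Form n) x)
            have e : lf (0 : Form n) x = 0 := by simp [lf]
            rw [e]
            exact Or.inl rfl
          smul_mem' := by
            intro c φ hφ
            have e : lf (c • φ) x = algebraMap ℂ K c * lf φ x := by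
              unfold lf
              rw [Finset.mul_sum]
              refine Finset.sum_congr rfl fun j _ => ?_
              rw [LinearMap.smul_apply, smul_eq_mul, map_mul]
              ring
            change Ge P (a + 1) (lf (c • φ) x)
            rw [e]
            have h1 := (Ge.const (P := P) c).mul hφ
            rwa [zero_add] at h1 }
      have hsp : Submodule.span ℂ (X.ℓ '' {i | v i ≠ 0}) ≠ ⊤ := by
        intro htop
        have h1 : Submodule.span ℂ (X.ℓ '' {i | v i ≠ 0}) ≤ W := by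
          rw [Submodule.span_le]
          rintro _ ⟨i, hi, rfl⟩
          change Ge P (a + 1) (lf (X.ℓ i) x)
          right
          rw [hv i]
          have h2 : 1 ≤ v i := Nat.one_le_iff_ne_zero.2 hi
          have h3 : (1 : ℤ) ≤ v i := by exact_mod_cast h2
          linarith
        rw [htop] at h1
        have h2 : X.ℓ i0 ∈ W := h1 trivial
        have h3 : Ge P (a + 1) (lf (X.ℓ i0) x) := h2
        have h4 := h3.resolve_left (hl i0)
        rw [hi0] at h4
        omega
      obtain ⟨u, hu0, hu⟩ := Pool.Agent.W33.CG.FRE.exists_common X.ℓ {i | v i ≠ 0} hsp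
      refine hR v hv0 ⟨u, hu0, fun i hi => hu i hi⟩ fun k => ?_
      have hyk : y k ≠ 0 := by
        intro hyk
        have h2 := hV.mem k
        rw [hyk, zero_pow (X.hm k).ne'] at h2
        obtain ⟨i, -, hi⟩ := Finset.prod_eq_zero_iff.1 h2.symm
        have h3 : X.e k i ≠ 0 := by
          intro h3
          rw [h3, pow_zero] at hi
          exact one_ne_zero hi
        exact hl i (pow_eq_zero_iff h3 |>.1 hi)
      exact compat hF hV.pt P a v hu0 (fun i h => absurd h (hl i)) (fun i hi => hu i hi)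
        (fun _ _ i _ => hv i) k hyk)
  obtain ⟨j0, hj0'⟩ := Function.ne_iff.1 hV.ne
  have hj0 : x j0 ≠ 0 := hj0'
  have halg' : Algebra.IsAlgebraic (adjoin ℂ (Set.range fun k => x k / x j0)) K := by
    refine HY.alg_mono ?_ halg
    rw [adjoin_le_iff]
    rintro _ ⟨i, j, hj, rfl⟩
    have e : x i / x j = (x i / x j0) / (x j / x j0) := by
      field_simp
    rw [e]
    exact div_mem (subset_adjoin ℂ _ ⟨i, rfl⟩) (subset_adjoin ℂ _ ⟨j, rfl⟩)
  obtain ⟨σ, hσ, hbas⟩ := exists_sigma hj0 halg' hV.dim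
  exact heff.general hR0 hσ hbas hV.dim

/-- the subvarieties which are not of general type are not dense -/
theorem alg_proper {m : ℕ} (hn : 1 ≤ n) (hm : n * (n + 1) * (n + 2) < 2 * m)
    (hR : Pool.Agent.TH152.AC.Mult X m) (hF : X.Free) (hirr : ¬ Reducible X.ℓ) :
    SpAlg X ≠ X.Pts := by
  classical
  have hlam : ∀ κ : Finset (Fin q), ∃ φ : Form n, φ ≠ 0 ∧
      (κ.Nonempty → κ ≠ Finset.univ → Flat X.ℓ κ ⊔ Flat X.ℓ κᶜ ≤ LinearMap.ker φ) := by
    intro κ
    by_cases hκ : κ.Nonempty ∧ κ ≠ Finset.univ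
    · obtain ⟨φ, h1, h2⟩ := Submodule.exists_le_ker_of_lt_top _
        (lt_top_iff_ne_top.mpr (flat_ne_top X.hℓ hirr hκ.1 hκ.2))
      exact ⟨φ, h1, fun _ _ => h2⟩
    · refine ⟨LinearMap.proj 0, ?_, fun h1 h2 => absurd ⟨h1, h2⟩ hκ⟩
      intro h0
      have := congrArg (fun f : Form n => f (Pi.single 0 1)) h0
      simp at this
  choose lam hlam0 hlam using hlam
  let G : Poly n r := lin r (LinearMap.proj 0) * ((∏ i, lin r (X.ℓ i)) *
    ∏ κ : Finset (Fin q), lin r (lam κ))
  have hp0 : (LinearMap.proj 0 : Form n) ≠ 0 := by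
    intro h0
    have := congrArg (fun f : Form n => f (Pi.single 0 1)) h0
    simp at this
  have hG0 : G ≠ 0 := mul_ne_zero (lin_ne hp0) (mul_ne_zero
    (Finset.prod_ne_zero_iff.mpr fun i _ => lin_ne (X.hℓ i))
    (Finset.prod_ne_zero_iff.mpr fun κ _ => lin_ne (hlam0 κ)))
  have hGev : ∀ v : (Fin (n + 1) → ℂ) × (Fin r → ℂ), ev v G
      = v.1 0 * ((∏ i, X.ℓ i v.1) * ∏ κ : Finset (Fin q), lam κ v.1) := by
    intro v
    simp only [G, ev_mul, ev_prod, ev_lin]
    rfl
  have hGhom : X.Hom G := ⟨_, (X.lin_hom _).mul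
    ((MvPolynomial.IsWeightedHomogeneous.prod _ _ _ fun i _ => X.lin_hom _).mul
      (MvPolynomial.IsWeightedHomogeneous.prod _ _ _ fun κ _ => X.lin_hom _))⟩
  obtain ⟨v, hv, hvG⟩ : ∃ v ∈ X.Pts, ev v G ≠ 0 := by
    have h1 : ∃ u : Fin (n + 1) ⊕ Fin r → ℂ, MvPolynomial.eval u G ≠ 0 := by
      by_contra hcon
      push Not at hcon
      exact hG0 (MvPolynomial.funext fun u => by rw [hcon u, map_zero])
    obtain ⟨u, hu⟩ := h1
    set x : Fin (n + 1) → ℂ := fun j => u (Sum.inl j) with hx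
    have hu2 : ev (x, fun k => u (Sum.inr k)) G ≠ 0 := by
      unfold ev
      have : Sum.elim x (fun k => u (Sum.inr k)) = u := by
        funext j
        cases j <;> rfl
      rw [this]
      exact hu
    rw [hGev] at hu2
    have hroot : ∀ k, ∃ t : ℂ, t ^ X.m k = ∏ i, X.ℓ i x ^ X.e k i := fun k =>
      IsAlgClosed.exists_pow_nat_eq _ (X.hm k)
    choose t ht using hroot
    refine ⟨(x, t), ⟨?_, ht⟩, by rw [hGev]; exact hu2⟩
    rintro h0
    apply hu2
    change x = 0 at h0
    rw [h0]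
    simp
  intro heq
  have hvS : v ∈ SpAlg X := heq ▸ hv
  apply hvG
  refine hvS.2 G hGhom fun K _ _ w x y hw hV hgt => ?_
  have hlin : ∀ θ : Form n, evK x y (lin r θ) = lf θ x := fun θ => evK_lpoly θ x y
  have hGK : evK x y G = lf (LinearMap.proj 0) x * ((∏ i, lf (X.ℓ i) x) *
      ∏ κ : Finset (Fin q), lf (lam κ) x) := by
    have hprod : ∀ {ι : Type} (s : Finset ι) (F : ι → Poly n r),
        evK x y (∏ i ∈ s, F i) = ∏ i ∈ s, evK x y (F i) := by
      intro ι s F
      unfold evK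
      rw [map_prod]
    simp only [G, evK_mul, hprod, hlin]
  by_contra hne
  rw [hGK] at hne
  have h1 := right_ne_zero_of_mul hne
  have h2 := Finset.prod_ne_zero_iff.1 (left_ne_zero_of_mul h1)
  have h3 := Finset.prod_ne_zero_iff.1 (right_ne_zero_of_mul h1)
  exact hgt (sub_general hn hm hR hF hirr hw hV (fun i => h2 i (Finset.mem_univ i))
    fun κ hκ1 hκ2 => ⟨lam κ, hlam κ hκ1 hκ2, h3 κ (Finset.mem_univ κ)⟩)

theorem spH_ne_iff (X : Cover n q r) : X.SpH ≠ X.Pts ↔ X.PseudoBrody := by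
  constructor
  · intro h
    by_contra hcon
    apply h
    refine Set.Subset.antisymm (fun v hv => hv.1) fun v hv => ⟨hv, fun G hG hE => ?_⟩
    by_contra hne
    exact hcon ⟨G, hG, ⟨v, hv, hne⟩, hE⟩
  · rintro ⟨G, hG, ⟨v, hv, hne⟩, hE⟩ heq
    have hvS : v ∈ X.SpH := heq ▸ hv
    exact hne (hvS.2 G hG hE)

theorem spSplit_sub_alg (hF : X.Free) : X.SpSplit ⊆ SpAlg X :=
  X.spSplit_sub.trans (spGm_sub_alg hF)

/-- **General type and the special sets.** -/
theorem gen_tfae' {m : ℕ} (hn : 1 ≤ n) (hm : n * (n + 1) * (n + 2) < 2 * m)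
    (hR : Pool.Agent.TH152.AC.Mult X m) (hF : X.Free) {K : Type} [Field K] [Algebra ℂ K]
    {x : Fin (n + 1) → K} {y : Fin r → K} (hK : X.FunctionField K x y) :
    [GeneralType ℂ K n, ¬ Reducible X.ℓ, SpAlg X ≠ X.Pts, X.SpGm ≠ X.Pts, X.SpH ≠ X.Pts].TFAE := by
  have hm3 : Pool.Agent.TH152.AC.Mult X (n + 3) := fun v h1 h2 h4 => by
    obtain ⟨i, hi⟩ := hR v h1 h2 h4
    have h1 : 2 ≤ n * (n + 1) := by nlinarith
    have h2 : 2 * (n + 2) ≤ n * (n + 1) * (n + 2) := Nat.mul_le_mul_right _ h1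
    exact ⟨i, by omega⟩
  tfae_have 1 → 2 := fun h hred => not_generalType X hF hK hred h
  tfae_have 2 → 1 := by
    intro h
    rcases Pool.Agent.TH152.AC.dichotomy hn X hF hK hm3 with ⟨h1, -, -⟩ | ⟨-, -, h2⟩
    · exact absurd h1 h
    · exact h2
  tfae_have 2 → 3 := fun h => alg_proper hn hm hR hF h
  tfae_have 3 → 2 := fun h hred => h (Set.Subset.antisymm (fun v hv => hv.1)
    ((split_dense hred hK).symm.subset.trans (spSplit_sub_alg hF)))
  tfae_have 2 → 5 := fun h => (spH_ne_iff X).2 (Pool.Agent.TH152.HY.cover_brody X hm hR h)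
  tfae_have 5 → 4 := fun h h4 => h (Set.Subset.antisymm (fun v hv => hv.1)
    (h4.symm.subset.trans X.spGm_sub))
  tfae_have 4 → 2 := fun h hred => h (Set.Subset.antisymm (fun v hv => hv.1)
    ((split_dense hred hK).symm.subset.trans X.spSplit_sub))
  tfae_finish

end Pool.Agent.TH152.CV
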