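import Pool.Agent.TH152.CV.Line
import Pool.Agent.TH152.DS.CodeHyp

/-!
Abelian covers of projective space with large exponents: hyperbolicity.
-/

set_option autoImplicit false

namespace Pool.Agent.TH152.CV

open FF Pool.Agent.W603.LV Pool.Agent.W602.GT Pool.Agent.W602.Cov Pool.Agent.W602.Cov.Cover
open Pool.Agent.W602.Cov.G Pool.Agent.W603.PV Pool.Agent.W603.CX
open Pool.Agent.TH152.DS Pool.Agent.TH152.HY
open IntermediateField

variable {n q r : ℕ}

section heights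

variable {K : Type} [Field K] [Algebra ℂ K]

theorem ge_lf (P : Place ℂ K) (φ : Form n) (x : Fin (n + 1) → K) : Ge P (pord P x) (lf φ x) := by
  unfold lf
  refine Ge.sum _ _ fun j _ => ?_
  have h1 := (Ge.const (P := P) (φ (Pi.single j 1))).mul (ge_pord P x j)
  rwa [zero_add] at h1

variable [IsFF ℂ K]

/-- the height of a quotient of linear forms is at most the height of the point -/
theorem hgt_lf_le {x : Fin (n + 1) → K} {φ ψ : Form n} (hφ : lf φ x ≠ 0) (hψ : lf ψ x ≠ 0) :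
    hgt ℂ (lf φ x / lf ψ x) ≤ pht ℂ x := by
  classical
  have hx : ∃ j, x j ≠ 0 := by
    by_contra hcon
    push Not at hcon
    apply hφ
    unfold lf
    exact Finset.sum_eq_zero fun j _ => by rw [hcon j, mul_zero]
  obtain ⟨T1, hT1⟩ := exists_supp (k := ℂ) Finset.univ x
  obtain ⟨T2, hT2⟩ := exists_supp (k := ℂ) (Finset.univ : Finset (Fin 2)) ![lf φ x, lf ψ x]
  obtain ⟨T, hT⟩ : ∃ T, T = T1 ∪ T2 := ⟨_, rfl⟩
  have h1 : ∀ j, ∀ P : Place ℂ K, P.ord (x j) ≠ 0 → P ∈ T := fun j P h => by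
    rw [hT]
    exact Finset.mem_union_left _ (hT1 j (Finset.mem_univ j) P h)
  have hφT : ∀ P : Place ℂ K, P.ord (lf φ x) ≠ 0 → P ∈ T := fun P h => by
    rw [hT]
    exact Finset.mem_union_right _ (hT2 0 (Finset.mem_univ _) P h)
  have hψT : ∀ P : Place ℂ K, P.ord (lf ψ x) ≠ 0 → P ∈ T := fun P h => by
    rw [hT]
    exact Finset.mem_union_right _ (hT2 1 (Finset.mem_univ _) P h)
  have h1' : ∀ P : Place ℂ K, P.ord (lf φ x / lf ψ x) ≠ 0 → P ∈ T := by
    intro P hP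
    by_contra hcon
    apply hP
    have h2 : P.ord (lf φ x) = 0 := by by_contra h; exact hcon (hφT P h)
    have h3 : P.ord (lf ψ x) = 0 := by by_contra h; exact hcon (hψT P h)
    rw [P.ord_div hφ hψ, h2, h3]
    rfl
  have h2 : pht ℂ x = ∑ P ∈ T, (- pord P x) := by
    unfold pht
    rw [finsum_eq_sum_of_support_subset (s := T), Finset.sum_neg_distrib]
    intro P hP
    by_contra hcon
    apply hP
    obtain ⟨j, hj, h⟩ := exists_pord P hx
    simp only
    rw [← h]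
    by_contra h'
    exact hcon (h1 j P h')
  have h3 : ∑ P ∈ T, P.ord (lf ψ x) = 0 := sum_ord_finset _ T hψT
  have h4 : ∑ P ∈ T, (- pord P x) = ∑ P ∈ T, (- pord P x + P.ord (lf ψ x)) := by
    rw [Finset.sum_add_distrib, h3, add_zero]
  rw [h2, h4, hgt_finset _ T h1']
  refine Finset.sum_le_sum fun P _ => ?_
  have h5 := (ge_lf P φ x).resolve_left hφ
  have h6 := (ge_lf P ψ x).resolve_left hψ
  rw [P.ord_div hφ hψ]
  refine max_le ?_ ?_ <;> omega

end heights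

variable {X : Cover n q r}

/-- a split point from split subspaces -/
theorem exists_split {V₁ V₂ : Submodule ℂ (Fin (n + 1) → ℂ)} (h1 : V₁ ⊓ V₂ = ⊥) (hV1 : V₁ ≠ ⊥)
    (hV2 : V₂ ≠ ⊥)
    (h5 : ∀ k, (∃ i, 0 < X.e k i ∧ (∀ v ∈ V₁, X.ℓ i v = 0) ∧ (∀ v ∈ V₂, X.ℓ i v = 0)) ∨
      ∀ i, 0 < X.e k i → (∀ v ∈ V₁, X.ℓ i v = 0) ∨ (∀ v ∈ V₂, X.ℓ i v = 0)) :
    ∃ u, X.Split u := by
  obtain ⟨a, ha, ha0⟩ := (Submodule.ne_bot_iff _).1 hV1
  obtain ⟨b, hb, hb0⟩ := (Submodule.ne_bot_iff _).1 hV2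
  have hbot : ∀ v, v ∈ V₁ → v ∈ V₂ → v = 0 := fun v hv hv' => by
    have h : v ∈ V₁ ⊓ V₂ := ⟨hv, hv'⟩
    rwa [h1, Submodule.mem_bot] at h
  choose y hy using fun k => IsAlgClosed.exists_pow_nat_eq
    (∏ i, X.ℓ i (a + b) ^ X.e k i) (X.hm k)
  have hab1 : a + b ∉ V₁ := fun h => hb0 (hbot b ((Submodule.add_mem_iff_right V₁ ha).1 h) hb)
  have hab2 : a + b ∉ V₂ := fun h => ha0 (hbot a ha ((Submodule.add_mem_iff_left V₂ hb).1 h))
  have h0 : a + b ≠ 0 := fun h => hab1 (h ▸ V₁.zero_mem)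
  exact ⟨(a + b, y), split_of_mem h1 h5 ⟨h0, hy⟩ (Submodule.add_mem_sup ha hb) hab1 hab2⟩

theorem exists_of_splitK {K : Type} [Field K] [Algebra ℂ K] {x : Fin (n + 1) → K}
    (h : SplitK X x) : ∃ u, X.Split u := by
  obtain ⟨V₁, V₂, h1, h2, ⟨φ, hφ1, hφ2⟩, ⟨ψ, hψ1, hψ2⟩, h5⟩ := h
  refine exists_split h1 ?_ ?_ h5
  · rintro rfl
    exact hψ2 (h2 ψ (by rw [bot_sup_eq]; exact hψ1))
  · rintro rfl
    exact hφ2 (h2 φ (by rw [sup_bot_eq]; exact hφ1))

theorem exists_of_curve (hB : Big X) {x : ℂ → Fin (n + 1) → ℂ} {y : ℂ → Fin r → ℂ}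
    (h : X.EntireCurve x y) : ∃ u, X.Split u := by
  obtain ⟨V₁, V₂, h1, h2, ⟨z1, h3⟩, ⟨z2, h4⟩, h5⟩ := curve_split hB h
  refine exists_split h1 ?_ ?_ h5
  · rintro rfl
    exact h4 (by simpa using h2 z2)
  · rintro rfl
    exact h3 (by simpa using h2 z1)

/-- **Degrees of curves.** -/
theorem deg_split (n q : ℕ) : ∃ R : ℕ, 0 < R ∧ ∀ {r : ℕ} {X : Cover n q r}, Big X → X.Free →
    ∀ {K : Type} [Field K] [Algebra ℂ K] [IsFF ℂ K] {x : Fin (n + 1) → K} {y : Fin r → K},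
    PtK X x y → pht ℂ x ≤ 0 ∨ SplitK X x ∨ pht ℂ x ≤ R * canDeg ℂ K := by
  obtain ⟨R, hR, hmain⟩ := dichotomy n q
  refine ⟨R, hR, ?_⟩
  intro r X hB hF K _ _ _ x y h
  obtain ⟨j0, hj0⟩ := Function.ne_iff.1 h.ne
  by_cases hnc : ∃ i j, x j ≠ 0 ∧ x i / x j ∉ Set.range (algebraMap ℂ K)
  · obtain ⟨i1, j1, hj1, hij1⟩ := hnc
    right
    have htrans : Transcendental ℂ (x i1 / x j1) := fun h => hij1 (mem_range_of_alg h)
    have halg : Algebra.IsAlgebraic (Pool.Agent.W602.GT.coords ℂ x) K := by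
      have h4 := (IsFF.basis (k := ℂ) htrans).isAlgebraic_field
      refine HY.alg_mono ?_ h4
      rw [IntermediateField.adjoin_le_iff]
      rintro _ ⟨u, rfl⟩
      exact IntermediateField.subset_adjoin ℂ _ ⟨i1, j1, hj1, rfl⟩
    rcases hmain hB hF (w := 1) le_rfl h halg
      (by rw [IsFF.trdeg (k := ℂ) (K := K)]; norm_num) with h1 | h1
    · exact Or.inl h1
    · right
      have h2 := deg_bound (b := x) ⟨j0, hj0⟩ h1.1 ∅ (fun P _ h => h)
      simpa [euler] using h2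
  · push Not at hnc
    exact Or.inl (pht_const ⟨j0, hj0⟩ hnc)

/-- the images of the multiplicative group are contained in entire curves -/
theorem gm_entire {P : Fin (n + 1) → Polynomial ℂ} {Q : Fin r → Polynomial ℂ}
    (hPQ : X.GmCurve P Q) : X.EntireCurve (fun z j => (P j).eval (Complex.exp z))
      (fun z k => (Q k).eval (Complex.exp z)) := by
  refine ⟨fun j => ?_, fun k => ?_, fun z => ?_, ?_⟩
  · exact (P j).differentiable.comp Complex.differentiable_exp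
  · exact (Q k).differentiable.comp Complex.differentiable_exp
  · exact hPQ.mem _ (Complex.exp_ne_zero z)
  · obtain ⟨t, u, ht, hu, htu⟩ := hPQ.nonconst
    refine ⟨Complex.log t, Complex.log u, ?_⟩
    simp only [Complex.exp_log ht, Complex.exp_log hu]
    exact htu

theorem exists_dual {x1 x2 : Fin (n + 1) → ℂ} (hli : LinearIndependent ℂ ![x1, x2]) :
    ∃ φ ψ : Form n, φ x1 = 1 ∧ φ x2 = 0 ∧ ψ x1 = 0 ∧ ψ x2 = 1 := by
  have h := LinearIndependent.pair_iff.1 hli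
  have key : ∀ a b : Fin (n + 1) → ℂ, a ∉ Submodule.span ℂ {b} → ∃ φ : Form n, φ a = 1 ∧ φ b = 0 := by
    intro a b hab
    obtain ⟨φ, h1, h2⟩ := Submodule.exists_le_ker_of_notMem hab
    refine ⟨(φ a)⁻¹ • φ, ?_, ?_⟩
    · rw [LinearMap.smul_apply, smul_eq_mul, inv_mul_cancel₀ h1]
    · rw [LinearMap.smul_apply]
      have h3 : φ b = 0 := h2 (Submodule.mem_span_singleton_self b)
      rw [h3, smul_zero]
  obtain ⟨φ, h1, h2⟩ := key x1 x2 (by
    rw [Submodule.mem_span_singleton]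
    rintro ⟨c, hc⟩
    have := h 1 (-c) (by rw [one_smul, neg_smul, hc, add_neg_cancel])
    exact one_ne_zero this.1)
  obtain ⟨ψ, h3, h4⟩ := key x2 x1 (by
    rw [Submodule.mem_span_singleton]
    rintro ⟨c, hc⟩
    have := h (-c) 1 (by rw [one_smul, neg_smul, hc, neg_add_cancel])
    exact one_ne_zero this.2)
  exact ⟨φ, ψ, h1, h2, h4, h3⟩

/-- split points give curves of unbounded degree -/
theorem unbounded {u : (Fin (n + 1) → ℂ) × (Fin r → ℂ)} (hu : X.Split u) (B : ℤ) :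
    ∃ (x : Fin (n + 1) → RatFunc ℂ) (y : Fin r → RatFunc ℂ), PtK X x y ∧ B < pht ℂ x := by
  classical
  obtain ⟨x1, x2, D, N, a, b, hli, -, hN, hBN, hab, hF⟩ := split_family hu B.toNat
  obtain ⟨φ, ψ, h1, h2, h3, h4⟩ := exists_dual hli
  obtain ⟨T, hT⟩ : ∃ T : RatFunc ℂ, T = RatFunc.X := ⟨_, rfl⟩
  have hTt : Transcendental ℂ T := hT ▸ RatFunc.transcendental_X
  have hT0 : T ≠ 0 := by rw [hT]; exact RatFunc.X_ne_zero
  have hT1 : 1 ≤ hgt ℂ T := by
    by_contra hcon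
    obtain ⟨c, hc⟩ := const_of_hgt (k := ℂ) (f := T) (by omega)
    exact hTt (hc ▸ isAlgebraic_algebraMap c)
  let x : Fin (n + 1) → RatFunc ℂ := fun j => T ^ N * algebraMap ℂ (RatFunc ℂ) (x1 j) +
    1 ^ N * algebraMap ℂ (RatFunc ℂ) (x2 j)
  have hφ : lf φ x = T ^ N := by
    change lf φ (fun j => T ^ N * algebraMap ℂ (RatFunc ℂ) (x1 j) +
      1 ^ N * algebraMap ℂ (RatFunc ℂ) (x2 j)) = _
    rw [lf_comb, h1, h2, map_one, map_zero, mul_one, mul_zero, add_zero]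
  have hψ : lf ψ x = 1 := by
    change lf ψ (fun j => T ^ N * algebraMap ℂ (RatFunc ℂ) (x1 j) +
      1 ^ N * algebraMap ℂ (RatFunc ℂ) (x2 j)) = _
    rw [lf_comb, h3, h4, map_one, map_zero, mul_one, mul_zero, zero_add, one_pow]
  have hne : x ≠ 0 := by
    intro h0
    rw [h0] at hψ
    have h5 : lf ψ (0 : Fin (n + 1) → RatFunc ℂ) = 0 := by
      unfold lf
      exact Finset.sum_eq_zero fun j _ => by rw [Pi.zero_apply, mul_zero]
    rw [h5] at hψ
    exact zero_ne_one hψ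
  refine ⟨x, fun k => algebraMap ℂ (RatFunc ℂ) (u.2 k) * T ^ a k * 1 ^ b k,
    ⟨hne, fun k => hF (RatFunc ℂ) T 1 k⟩, ?_⟩
  have h5 := hgt_lf_le (x := x) (φ := φ) (ψ := ψ) (by rw [hφ]; exact pow_ne_zero _ hT0)
    (by rw [hψ]; exact one_ne_zero)
  rw [hφ, hψ, div_one, hgt_pow hT0] at h5
  have h6 : (N : ℤ) * 1 ≤ N * hgt ℂ T := mul_le_mul_of_nonneg_left hT1 (by positivity)
  have h7 : B ≤ B.toNat := Int.self_le_toNat B
  have h8 : (B.toNat : ℤ) < N := by exact_mod_cast hBN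
  linarith

/-- `X` is algebraically hyperbolic, with the constant `R`: for every function field `K` of a curve,
of genus `g`, and every morphism from this curve to `X`, the degree of the inverse image of a
hyperplane of projective space is at most `R * max (2 * g - 2) 0`. -/
def AlgHyp (R : ℕ) (X : Cover n q r) : Prop :=
  ∀ (K : Type) [Field K] [Algebra ℂ K] [IsFF ℂ K] (x : Fin (n + 1) → K) (y : Fin r → K),
    PtK X x y → pht ℂ x ≤ R * max (canDeg ℂ K) 0

/-- the degrees of the morphisms from any given curve to `X` are bounded -/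
def BddCurves (X : Cover n q r) : Prop :=
  ∀ (K : Type) [Field K] [Algebra ℂ K] [IsFF ℂ K], ∃ B : ℤ, ∀ (x : Fin (n + 1) → K)
    (y : Fin r → K), PtK X x y → pht ℂ x ≤ B

/-- all closed subvarieties of `X` of positive dimension are of general type -/
def AllGT (X : Cover n q r) : Prop :=
  ∀ (K : Type) [Field K] [Algebra ℂ K] (w : ℕ) (x : Fin (n + 1) → K) (y : Fin r → K), 1 ≤ w →
    SubVar X K w x y → GeneralType ℂ K w

/-- A nonconstant morphism from the affine line to `X`. -/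
structure RatCurve (X : Cover n q r) (P : Fin (n + 1) → Polynomial ℂ)
    (Q : Fin r → Polynomial ℂ) : Prop where
  mem : ∀ t : ℂ, at' P Q t ∈ X.Pts
  nonconst : ∃ t u : ℂ, ¬ X.Same (at' P Q t) (at' P Q u)

theorem RatCurve.gm {P : Fin (n + 1) → Polynomial ℂ} {Q : Fin r → Polynomial ℂ}
    (h : RatCurve X P Q) : ∃ P Q, X.GmCurve P Q := by
  obtain ⟨t, u, htu⟩ := h.nonconst
  -- translate so that both parameters are not zero
  obtain ⟨c, hc⟩ : ∃ c : ℂ, t - c ≠ 0 ∧ u - c ≠ 0 := by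
    obtain ⟨c, hc⟩ := Infinite.exists_notMem_finset ({t, u} : Finset ℂ)
    rw [Finset.mem_insert, Finset.mem_singleton, not_or] at hc
    exact ⟨c, sub_ne_zero.2 (Ne.symm hc.1), sub_ne_zero.2 (Ne.symm hc.2)⟩
  have hat : ∀ s : ℂ, at' (fun j => (P j).comp (Polynomial.X + Polynomial.C c))
      (fun k => (Q k).comp (Polynomial.X + Polynomial.C c)) s = at' P Q (s + c) := by
    intro s
    unfold at'
    simp only [Polynomial.eval_comp, Polynomial.eval_add, Polynomial.eval_X, Polynomial.eval_C]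
  refine ⟨fun j => (P j).comp (Polynomial.X + Polynomial.C c),
    fun k => (Q k).comp (Polynomial.X + Polynomial.C c), fun s _ => ?_, t - c, u - c, hc.1, hc.2, ?_⟩
  · rw [hat]
    exact h.mem _
  · rw [hat, hat, sub_add_cancel, sub_add_cancel]
    exact htu

theorem rat_of_split {u : (Fin (n + 1) → ℂ) × (Fin r → ℂ)} (hu : X.Split u) :
    ∃ P Q, RatCurve X P Q := by
  obtain ⟨x1, x2, D, N, a, b, hli, -, hN, hBN, hab, hF⟩ := split_family hu 0
  obtain ⟨φ, ψ, h1, h2, h3, h4⟩ := exists_dual hli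
  let P : Fin (n + 1) → Polynomial ℂ := fun j =>
    Polynomial.X ^ N * Polynomial.C (x1 j) + Polynomial.C (x2 j)
  let Q : Fin r → Polynomial ℂ := fun k => Polynomial.C (u.2 k) * Polynomial.X ^ a k
  have hP : ∀ t : ℂ, (at' P Q t).1 = t ^ N • x1 + x2 := by
    intro t
    funext j
    change (Polynomial.X ^ N * Polynomial.C (x1 j) + Polynomial.C (x2 j)).eval t = _
    simp only [Polynomial.eval_add, Polynomial.eval_mul, Polynomial.eval_pow, Polynomial.eval_X,
      Polynomial.eval_C, Pi.add_apply, Pi.smul_apply, smul_eq_mul]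
  have hQ : ∀ (t : ℂ) k, (at' P Q t).2 k = u.2 k * t ^ a k := by
    intro t k
    change (Polynomial.C (u.2 k) * Polynomial.X ^ a k).eval t = _
    simp
  refine ⟨P, Q, fun t => ⟨fun h0 => ?_, fun k => ?_⟩, 1, 2, ?_⟩
  · rw [hP] at h0
    have h5 := congrArg ψ h0
    rw [map_add, map_smul, h3, h4, map_zero, smul_zero, zero_add] at h5
    exact one_ne_zero h5
  · have h5 := hF ℂ t 1 k
    rw [one_pow, mul_one] at h5
    rw [hQ, hP]
    refine h5.trans (Finset.prod_congr rfl fun i _ => ?_)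
    rw [lf_comb]
    simp
  · rintro ⟨s, -, hs, -⟩
    rw [hP, hP] at hs
    have h5 := congrArg ψ hs
    have h6 := congrArg φ hs
    simp only [map_add, map_smul, h1, h2, h3, h4, smul_eq_mul, mul_zero, zero_add, add_zero,
      mul_one, one_pow] at h5 h6
    rw [← h5] at h6
    have h3 : (2 : ℕ) ^ N = 1 := by exact_mod_cast h6
    have h4 : 1 < 2 ^ N := Nat.one_lt_two_pow (by omega)
    omega

/-- **Hyperbolicity of abelian covers.** -/
theorem hyperbolic_tfae (n q : ℕ) : ∃ R : ℕ, 0 < R ∧ ∀ {r : ℕ} {X : Cover n q r}, Big X →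
    X.Free → [∀ v, ¬ X.Split v, AlgHyp R X, BddCurves X, ∀ P Q, ¬ X.GmCurve P Q,
      ∀ P Q, ¬ RatCurve X P Q, AllGT X, ∀ x y, ¬ X.EntireCurve x y].TFAE := by
  obtain ⟨R, hR, hdeg⟩ := deg_split n q
  refine ⟨R, hR, ?_⟩
  intro r X hB hF
  obtain ⟨R', -, hdich⟩ := dichotomy n q
  tfae_have 1 → 2 := by
    intro h K _ _ _ x y hX
    have h0 : (0 : ℤ) ≤ R * max (canDeg ℂ K) 0 := by positivity
    rcases hdeg hB hF hX with h1 | h1 | h1
    · exact h1.trans h0
    · obtain ⟨u, hu⟩ := exists_of_splitK h1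
      exact absurd hu (h u)
    · exact h1.trans (mul_le_mul_of_nonneg_left (le_max_left _ _) (by positivity))
  tfae_have 2 → 3 := fun h K _ _ _ => ⟨_, fun x y hX => h K x y hX⟩
  tfae_have 3 → 1 := by
    intro h u hu
    obtain ⟨B, hB⟩ := h (RatFunc ℂ)
    obtain ⟨x, y, hP, hlt⟩ := unbounded hu B
    exact absurd (hB x y hP) (not_le.2 hlt)
  tfae_have 1 → 6 := by
    intro h K _ _ w x y hw hV
    rcases hdich hB hF hw hV.pt (alg_of_gen hV.pt hV.gen) hV.dim with h1 | ⟨-, h1⟩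
    · obtain ⟨u, hu⟩ := exists_of_splitK h1
      exact absurd hu (h u)
    · exact h1
  tfae_have 6 → 4 := by
    intro h P Q hPQ
    obtain ⟨K, _, _, x, y, hV, hgt, -⟩ := sub_of_gm hF hPQ
    exact hgt (h K 1 x y le_rfl hV)
  tfae_have 1 → 7 := by
    intro h x y hxy
    obtain ⟨u, hu⟩ := exists_of_curve hB hxy
    exact h u hu
  tfae_have 7 → 4 := fun h P Q hPQ => h _ _ (gm_entire hPQ)
  tfae_have 4 → 5 := by
    intro h P Q hPQ
    obtain ⟨P', Q', h'⟩ := hPQ.gm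
    exact h P' Q' h'
  tfae_have 5 → 1 := by
    intro h u hu
    obtain ⟨P, Q, h'⟩ := rat_of_split hu
    exact h P Q h'
  tfae_finish

end Pool.Agent.TH152.CV
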