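import Pool.Agent.W602.Cov.SpMain
import Pool.Agent.TH152.HY.Brody

/-!
Abelian covers of projective space with large exponents: entire curves. (The bound for the exponents
does not depend on the number of hyperplanes. The proofs follow W602.Cov.Sp.)
-/

set_option autoImplicit false

namespace Pool.Agent.TH152.CV

open Pool.Agent.W602.Cov Pool.Agent.W602.Cov.Cover Pool.Agent.TH152.HY
open Pool.Agent.W602.NC Pool.Agent.H159R3.NV MvPolynomial

/-- The linear span of a highly ramified entire curve splits. -/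
theorem split_of_curve {n q M : ℕ} (ℓ : Fin q → Form n) (S : Finset (Fin q))
    (hM : n * (n + 1) * (n + 2) < 2 * M) {x : ℂ → Fin (n + 1) → ℂ} (hx : CurveInPn x)
    (hne : ∀ i ∈ S, ∃ z, ℓ i (x z) ≠ 0)
    (hord : ∀ z, (∃ i ∈ S, ℓ i (x z) = 0) →
      ∃ i ∈ S, (M : ℕ∞) ≤ analyticOrderAt (fun z => ℓ i (x z)) z) :
    ∃ V₁ V₂ : Submodule ℂ (Fin (n + 1) → ℂ), V₁ ⊓ V₂ = ⊥ ∧ (∀ z, x z ∈ V₁ ⊔ V₂) ∧
      (∃ z, x z ∉ V₁) ∧ (∃ z, x z ∉ V₂) ∧
      V₁ ≤ Submodule.span ℂ (Set.range x) ∧ V₂ ≤ Submodule.span ℂ (Set.range x) ∧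
      ∀ i ∈ S, (∀ v ∈ V₁, ℓ i v = 0) ∨ (∀ v ∈ V₂, ℓ i v = 0) := by
  classical
  obtain ⟨W, hWd⟩ : ∃ W : Submodule ℂ (Fin (n + 1) → ℂ), W = Submodule.span ℂ (Set.range x) :=
    ⟨_, rfl⟩
  have hxW : ∀ z, x z ∈ W := fun z => by rw [hWd]; exact Submodule.subset_span ⟨z, rfl⟩
  have hWpos : 0 < Module.finrank ℂ W := by
    rw [Module.finrank_pos_iff_exists_ne_zero]
    exact ⟨⟨x 0, hxW 0⟩, fun h => hx.ne 0 (congrArg Subtype.val h)⟩
  have hWle : Module.finrank ℂ W ≤ n + 1 := by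
    have h1 := Submodule.finrank_le W
    rwa [Module.finrank_fin_fun] at h1
  obtain ⟨m, hm⟩ : ∃ m, Module.finrank ℂ W = m + 1 := ⟨Module.finrank ℂ W - 1, by omega⟩
  have hmn : m ≤ n := by omega
  obtain ⟨φ⟩ : Nonempty (W ≃ₗ[ℂ] (Fin (m + 1) → ℂ)) := by
    refine ⟨LinearEquiv.ofFinrankEq _ _ ?_⟩
    rw [hm, Module.finrank_fin_fun]
  obtain ⟨A, hA⟩ := LinearMap.exists_extend φ.toLinearMap
  obtain ⟨B, hB⟩ : ∃ B : (Fin (m + 1) → ℂ) →ₗ[ℂ] (Fin (n + 1) → ℂ),
    B = W.subtype ∘ₗ φ.symm.toLinearMap := ⟨_, rfl⟩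
  have hAφ : ∀ w : W, A w = φ w := fun w => LinearMap.congr_fun hA w
  have hBA : ∀ w ∈ W, B (A w) = w := by
    intro w hw
    have h1 := hAφ ⟨w, hw⟩
    change A w = _ at h1
    rw [h1, hB]
    simp
  have hAB : ∀ u, A (B u) = u := by
    intro u
    rw [hB]
    change A ((φ.symm u : W) : Fin (n + 1) → ℂ) = u
    rw [hAφ]
    simp
  have hBinj : Function.Injective B := fun u v h => by rw [← hAB u, h, hAB]
  set x' : ℂ → Fin (m + 1) → ℂ := fun z => A (x z) with hx'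
  have hBx : ∀ z, B (x' z) = x z := fun z => hBA _ (hxW z)
  have hcurve : CurveInPn x' := by
    refine ⟨fun j => ?_, fun z h => ?_, ?_⟩
    · exact form_diff hx.diff (LinearMap.proj j ∘ₗ A)
    · apply hx.ne z
      rw [← hBx z, h, map_zero]
    · obtain ⟨z, z', h⟩ := hx.nonconst
      refine ⟨z, z', fun t ht => h t ?_⟩
      rw [← hBx z', ht, map_smul, hBx]
  let σ : Fin S.card ≃ S := S.equivFin.symm
  let ℓ' : Fin S.card → Form m := fun j => ℓ (σ j).1 ∘ₗ B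
  have hℓ'x : ∀ j z, ℓ' j (x' z) = ℓ (σ j).1 (x z) := by
    intro j z
    change ℓ (σ j).1 (B (x' z)) = _
    rw [hBx]
  have hℓ'0 : ∀ j, ℓ' j ≠ 0 := by
    intro j h
    obtain ⟨z, hz⟩ := hne _ (σ j).2
    apply hz
    rw [← hℓ'x, h]
    rfl
  have hM' : m * (m + 1) * (m + 2) < 2 * M := by
    refine lt_of_le_of_lt ?_ hM
    exact Nat.mul_le_mul (Nat.mul_le_mul hmn (by omega)) (by omega)
  by_cases hred : Reducible ℓ'
  · obtain ⟨V₁, V₂, h1, h2, hc, hℓ⟩ := hred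
    have hmem : ∀ z, x z ∈ V₁.map B ⊔ V₂.map B := by
      intro z
      rw [← Submodule.map_sup, hc.sup_eq_top]
      exact ⟨x' z, trivial, hBx z⟩
    have hall : ∀ V : Submodule ℂ (Fin (m + 1) → ℂ), (∀ z, x z ∈ V.map B) → V = ⊤ := by
      intro V hV
      rw [eq_top_iff]
      intro u _
      have h3 : W ≤ V.map B := by
        rw [hWd, Submodule.span_le]
        rintro _ ⟨z, rfl⟩
        exact hV z
      have h4 : B u ∈ W := by
        rw [hB]
        exact (φ.symm u).2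
      obtain ⟨u', hu', hu⟩ := h3 h4
      rw [← hBinj hu]
      exact hu'
    have hBW : ∀ V : Submodule ℂ (Fin (m + 1) → ℂ), V.map B ≤ Submodule.span ℂ (Set.range x) := by
      rintro V _ ⟨u, -, rfl⟩
      rw [← hWd, hB]
      exact (φ.symm u).2
    refine ⟨V₁.map B, V₂.map B, ?_, hmem, ?_, ?_, hBW _, hBW _, ?_⟩
    · rw [← Submodule.map_inf B hBinj, hc.inf_eq_bot, Submodule.map_bot]
    · by_contra hcon
      push Not at hcon
      have h3 := hc.inf_eq_bot
      rw [hall V₁ hcon, top_inf_eq] at h3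
      exact h2 h3
    · by_contra hcon
      push Not at hcon
      have h3 := hc.inf_eq_bot
      rw [hall V₂ hcon, inf_top_eq] at h3
      exact h1 h3
    · intro i hi
      obtain ⟨j, hj⟩ := σ.surjective ⟨i, hi⟩
      have hj' : (σ j).1 = i := by rw [hj]
      rcases hℓ j with h | h
      · left
        rintro _ ⟨u, hu, rfl⟩
        have h3 := h u hu
        change ℓ (σ j).1 (B u) = 0 at h3
        rwa [hj'] at h3
      · right
        rintro _ ⟨u, hu, rfl⟩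
        have h3 := h u hu
        change ℓ (σ j).1 (B u) = 0 at h3
        rwa [hj'] at h3
  · exfalso
    obtain ⟨κ, h1, h2, h3⟩ := curve_entire hred hM' hcurve (by
      intro j
      obtain ⟨z, hz⟩ := hne _ (σ j).2
      exact ⟨z, by rw [hℓ'x]; exact hz⟩) (by
      intro z a ha ha0
      obtain ⟨j, hj⟩ := Function.ne_iff.1 ha0
      have e1 : ∀ j, (fun w => ℓ' j (x' w)) = fun w => ℓ (σ j).1 (x w) := fun j =>
        funext fun w => hℓ'x j w
      have hz : ℓ (σ j).1 (x z) = 0 := by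
        by_contra hne0
        apply hj
        have h6 := ha j
        rw [e1, ((form_diff hx.diff (ℓ (σ j).1)).analyticAt z).analyticOrderAt_eq_zero.2 hne0] at h6
        exact_mod_cast h6.symm
      obtain ⟨i, hi, hi2⟩ := hord z ⟨_, (σ j).2, hz⟩
      obtain ⟨j', hj'⟩ := σ.surjective ⟨i, hi⟩
      refine ⟨j', ?_⟩
      have h7 := ha j'
      rw [e1, hj'] at h7
      change analyticOrderAt (fun w => ℓ i (x w)) z = _ at h7
      rw [h7] at hi2
      exact_mod_cast hi2)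
    apply flat_ne_top hℓ'0 hred h1 h2
    rw [eq_top_iff]
    intro u _
    have h4 : W ≤ (Flat ℓ' κ ⊔ Flat ℓ' κᶜ).map B := by
      rw [hWd, Submodule.span_le]
      rintro _ ⟨z, rfl⟩
      exact ⟨x' z, h3 z, hBx z⟩
    have h5 : B u ∈ W := by
      rw [hB]
      exact (φ.symm u).2
    obtain ⟨u', hu', hu⟩ := h4 h5
    rw [← hBinj hu]
    exact hu'


section

variable {n q r : ℕ} (X : Cover n q r)

/-- The exponents are large: `2 m k > n (n + 1) (n + 2) ∑ i, e k i` for all `k`. -/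
def Big : Prop := ∀ k, n * (n + 1) * (n + 2) * ∑ i, X.e k i < 2 * X.m k

variable {X}

/-- The decomposition of the linear span of an entire curve. -/
theorem curve_split (hL : Big X) {x : ℂ → Fin (n + 1) → ℂ} {y : ℂ → Fin r → ℂ}
    (h : X.EntireCurve x y) :
    ∃ V₁ V₂ : Submodule ℂ (Fin (n + 1) → ℂ), V₁ ⊓ V₂ = ⊥ ∧ (∀ z, x z ∈ V₁ ⊔ V₂) ∧
      (∃ z, x z ∉ V₁) ∧ (∃ z, x z ∉ V₂) ∧
      ∀ k, (∃ i, 0 < X.e k i ∧ (∀ v ∈ V₁, X.ℓ i v = 0) ∧ (∀ v ∈ V₂, X.ℓ i v = 0)) ∨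
        ∀ i, 0 < X.e k i → (∀ v ∈ V₁, X.ℓ i v = 0) ∨ (∀ v ∈ V₂, X.ℓ i v = 0) := by
  classical
  have hd : ∀ i, Differentiable ℂ fun z => X.ℓ i (x z) := fun i => form_diff h.diffx _
  let S : Finset (Fin q) := Finset.univ.filter fun i => ∃ k, 0 < X.e k i ∧
    ∀ i', 0 < X.e k i' → ∃ z, X.ℓ i' (x z) ≠ 0
  have hS : ∀ i, i ∈ S ↔ ∃ k, 0 < X.e k i ∧ ∀ i', 0 < X.e k i' → ∃ z, X.ℓ i' (x z) ≠ 0 :=
    fun i => by simp [S]
  obtain ⟨V₁, V₂, h1, h2, h3, h4, hs1, hs2, h5⟩ := split_of_curve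
    (M := n * (n + 1) * (n + 2) / 2 + 1) X.ℓ S (by omega) (X.curve h) (by
      intro i hi
      obtain ⟨k, hk, hk'⟩ := (hS i).1 hi
      exact hk' i hk) (by
    rintro z ⟨i, hi, hiz⟩
    obtain ⟨k, hk, hk'⟩ := (hS i).1 hi
    let T : Finset (Fin q) := Finset.univ.filter fun i => 0 < X.e k i
    have hT : ∀ i, i ∈ T ↔ 0 < X.e k i := fun i => by simp [T]
    have hTS : T ⊆ S := fun i' hi' => (hS i').2 ⟨k, (hT i').1 hi', hk'⟩
    suffices hsuff : ∃ i ∈ T, ((n * (n + 1) * (n + 2) / 2 + 1 : ℕ) : ℕ∞) ≤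
        analyticOrderAt (fun z => X.ℓ i (x z)) z by
      obtain ⟨i', hi', h'⟩ := hsuff
      exact ⟨i', hTS hi', h'⟩
    have hv : ∀ i', ∃ v : ℕ, i' ∈ T → analyticOrderAt (fun z => X.ℓ i' (x z)) z = v := by
      intro i'
      by_cases hi' : i' ∈ T
      · obtain ⟨v, hv⟩ := finite_order' (hd i') (hk' i' ((hT i').1 hi')) z
        exact ⟨v, fun _ => hv⟩
      · exact ⟨0, fun h => absurd h hi'⟩
    choose v hv using hv
    have e1 : (fun z => y z k) ^ X.m k = fun z => ∏ i ∈ T, X.ℓ i (x z) ^ X.e k i := by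
      funext w
      have e2 : y w k ^ X.m k = ∏ i, X.ℓ i (x w) ^ X.e k i := (h.mem w).2 k
      change y w k ^ X.m k = _
      rw [e2]
      symm
      apply Finset.prod_subset (Finset.subset_univ _)
      intro i' _ hi'
      rw [hT, Nat.pos_iff_ne_zero, not_not] at hi'
      rw [hi', pow_zero]
    have e3 : analyticOrderAt (fun z => ∏ i ∈ T, X.ℓ i (x z) ^ X.e k i) z
        = ((∑ i ∈ T, X.e k i * v i : ℕ) : ℕ∞) := by
      rw [ord_prod _ (fun i z => X.ℓ i (x z) ^ X.e k i) z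
        (fun i _ => ((hd i).pow _).analyticAt z)]
      push_cast
      refine Finset.sum_congr rfl fun i hi => ?_
      have e2 : (fun z => X.ℓ i (x z) ^ X.e k i) = (fun z => X.ℓ i (x z)) ^ X.e k i := rfl
      rw [e2, analyticOrderAt_pow ((hd i).analyticAt z), hv i hi, nsmul_eq_mul]
    have hyd := h.diffy k
    rw [← e1, analyticOrderAt_pow (hyd.analyticAt z)] at e3
    obtain ⟨a, ha⟩ : ∃ a : ℕ, X.m k * a = ∑ i ∈ T, X.e k i * v i := by
      cases ho : analyticOrderAt (fun z => y z k) z with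
      | top =>
        rw [ho, nsmul_eq_mul, ENat.mul_top (by exact_mod_cast (X.hm k).ne')] at e3
        exact absurd e3.symm (ENat.natCast_ne_top _)
      | coe a =>
        rw [ho, nsmul_eq_mul] at e3
        exact ⟨a, by exact_mod_cast e3⟩
    have hiT : i ∈ T := (hT i).2 hk
    have hvi : 0 < v i := by
      rw [Nat.pos_iff_ne_zero]
      intro h0
      have h6 := hv i hiT
      rw [h0] at h6
      have h7 : analyticOrderAt (fun z => X.ℓ i (x z)) z = 0 := by rw [h6]; simp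
      rw [((hd i).analyticAt z).analyticOrderAt_eq_zero] at h7
      exact h7 hiz
    have hsum0 : 0 < ∑ i ∈ T, X.e k i * v i :=
      lt_of_lt_of_le (Nat.mul_pos hk hvi)
        (Finset.single_le_sum (f := fun i => X.e k i * v i) (fun _ _ => Nat.zero_le _) hiT)
    have ha0 : 1 ≤ a := by
      rw [Nat.one_le_iff_ne_zero]
      rintro rfl
      rw [mul_zero] at ha
      omega
    obtain ⟨j, hj, hjmax⟩ := Finset.exists_max_image T v ⟨i, hiT⟩
    refine ⟨j, hj, ?_⟩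
    rw [hv j hj]
    have h6 : X.m k ≤ (∑ i, X.e k i) * v j := by
      calc X.m k ≤ X.m k * a := Nat.le_mul_of_pos_right _ ha0
        _ = ∑ i ∈ T, X.e k i * v i := ha
        _ ≤ ∑ i ∈ T, X.e k i * v j := Finset.sum_le_sum fun i hi =>
            Nat.mul_le_mul_left _ (hjmax i hi)
        _ = (∑ i ∈ T, X.e k i) * v j := by rw [Finset.sum_mul]
        _ ≤ (∑ i, X.e k i) * v j := Nat.mul_le_mul_right _
            (Finset.sum_le_sum_of_subset (Finset.subset_univ T))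
    have h7 := hL k
    have h8 : n * (n + 1) * (n + 2) < 2 * v j := by
      by_contra hcon
      push Not at hcon
      have h9 : (∑ i, X.e k i) * (2 * v j) ≤ (∑ i, X.e k i) * (n * (n + 1) * (n + 2)) :=
        Nat.mul_le_mul_left _ hcon
      have h10 : (∑ i, X.e k i) * (2 * v j) = 2 * ((∑ i, X.e k i) * v j) := by ring
      have h11 : (∑ i, X.e k i) * (n * (n + 1) * (n + 2)) =
        n * (n + 1) * (n + 2) * ∑ i, X.e k i := mul_comm _ _
      omega
    have h9 : n * (n + 1) * (n + 2) / 2 + 1 ≤ v j := by omega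
    exact_mod_cast h9)
  refine ⟨V₁, V₂, h1, h2, h3, h4, fun k => ?_⟩
  by_cases hk : ∃ i, 0 < X.e k i ∧ ∀ z, X.ℓ i (x z) = 0
  · left
    obtain ⟨i, hi, hix⟩ := hk
    have h6 : Submodule.span ℂ (Set.range x) ≤ LinearMap.ker (X.ℓ i) := by
      rw [Submodule.span_le]
      rintro _ ⟨z, rfl⟩
      exact hix z
    exact ⟨i, hi, fun v hv => h6 (hs1 hv), fun v hv => h6 (hs2 hv)⟩
  · right
    intro i hi
    push Not at hk
    exact h5 i ((hS i).2 ⟨k, hi, hk⟩)

end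

end Pool.Agent.TH152.CV
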