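import Pool.Agent.TH152.CV.Hil

/-!
Images of the multiplicative group in abelian covers are not of general type.
-/

set_option autoImplicit false

namespace Pool.Agent.TH152.CV

open FF Pool.Agent.W603.LV Pool.Agent.W602.GT Pool.Agent.W602.Cov Pool.Agent.W602.Cov.Cover
open Pool.Agent.W602.Cov.G
open IntermediateField

variable {n q r : ℕ} {X : Cover n q r}

/-- values of polynomials along a polynomial curve -/
theorem eval_curve (P : Fin (n + 1) → Polynomial ℂ) (Q : Fin r → Polynomial ℂ) (G : Poly n r) :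
    (∀ t : ℂ, (MvPolynomial.aeval (Sum.elim P Q) G : Polynomial ℂ).eval t = ev (at' P Q t) G) ∧
    algebraMap (Polynomial ℂ) (RatFunc ℂ) (MvPolynomial.aeval (Sum.elim P Q) G) =
      evK (fun j => algebraMap (Polynomial ℂ) (RatFunc ℂ) (P j))
        (fun k => algebraMap (Polynomial ℂ) (RatFunc ℂ) (Q k)) G := by
  constructor
  · intro t
    unfold ev
    have h1 := MvPolynomial.comp_aeval_apply (Polynomial.aeval t : Polynomial ℂ →ₐ[ℂ] ℂ)
      (f := Sum.elim P Q) G
    rw [Polynomial.coe_aeval_eq_eval] at h1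
    have h2 : (fun i => Polynomial.eval t (Sum.elim P Q i)) = Sum.elim (at' P Q t).1
        (at' P Q t).2 := by
      funext i
      rcases i with j | k <;> rfl
    rw [← h2, ← MvPolynomial.aeval_eq_eval]
    exact h1
  · unfold evK
    have h1 := MvPolynomial.comp_aeval_apply
      ((Algebra.ofId (Polynomial ℂ) (RatFunc ℂ)).restrictScalars ℂ) (f := Sum.elim P Q) G
    refine Eq.trans ?_ (h1.trans ?_)
    · rfl
    · congr 1
      congr 1
      funext i
      rcases i with j | k <;> rfl

theorem poly_eq {p p' : Polynomial ℂ} (h : ∀ t : ℂ, t ≠ 0 → p.eval t = p'.eval t) : p = p' := by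
  have h1 : p - p' = 0 := by
    apply Polynomial.eq_zero_of_infinite_isRoot
    refine Set.Infinite.mono ?_ (Set.finite_singleton (0 : ℂ)).infinite_compl
    intro t ht
    change (p - p').eval t = 0
    rw [Polynomial.eval_sub, h t ht, sub_self]
  exact sub_eq_zero.1 h1

variable {P : Fin (n + 1) → Polynomial ℂ} {Q : Fin r → Polynomial ℂ}

/-- the generic point of the image -/
theorem gm_pt (h : X.GmCurve P Q) :
    PtK X (fun j => algebraMap (Polynomial ℂ) (RatFunc ℂ) (P j))
      (fun k => algebraMap (Polynomial ℂ) (RatFunc ℂ) (Q k)) := by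
  have hinj : Function.Injective (algebraMap (Polynomial ℂ) (RatFunc ℂ)) :=
    RatFunc.algebraMap_injective ℂ
  have hlf : ∀ φ : Form n, lf φ (fun j => algebraMap (Polynomial ℂ) (RatFunc ℂ) (P j)) =
      algebraMap (Polynomial ℂ) (RatFunc ℂ) (∑ j, Polynomial.C (φ (Pi.single j 1)) * P j) := by
    intro φ
    unfold lf
    rw [map_sum]
    refine Finset.sum_congr rfl fun j _ => ?_
    rw [map_mul]
    congr 1
  have hev : ∀ (φ : Form n) (t : ℂ), (∑ j, Polynomial.C (φ (Pi.single j 1)) * P j).eval t =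
      φ (fun j => (P j).eval t) := by
    intro φ t
    rw [Polynomial.eval_finsetSum, LinearMap.pi_apply_eq_sum_univ φ]
    refine Finset.sum_congr rfl fun j _ => ?_
    rw [Polynomial.eval_mul, Polynomial.eval_C, smul_eq_mul, mul_comm]
    congr 2
    funext k
    simp [Pi.single_apply, eq_comm]
  refine ⟨?_, fun k => ?_⟩
  · intro h0
    apply (h.mem 1 one_ne_zero).1
    funext j
    have h1 := congrFun h0 j
    have h2 : P j = 0 := hinj (by rw [map_zero]; exact h1)
    change (P j).eval 1 = 0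
    rw [h2, Polynomial.eval_zero]
  · rw [Finset.prod_congr rfl fun i _ => by rw [hlf (X.ℓ i)]]
    simp only [← map_pow]
    rw [← map_prod]
    congr 1
    refine poly_eq fun t ht => ?_
    rw [Polynomial.eval_pow, Polynomial.eval_prod]
    have h1 := (h.mem t ht).2 k
    change (Q k).eval t ^ X.m k = ∏ i, X.ℓ i (fun j => (P j).eval t) ^ X.e k i at h1
    rw [h1]
    refine Finset.prod_congr rfl fun i _ => ?_
    rw [Polynomial.eval_pow, hev]

/-- the weights of the coordinates which are not zero have no common divisor -/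
theorem gm_deg (hF : X.Free) (h : X.GmCurve P Q) :
    (1 : ℤ) ∈ Deg X (fun j => algebraMap (Polynomial ℂ) (RatFunc ℂ) (P j))
      (fun k => algebraMap (Polynomial ℂ) (RatFunc ℂ) (Q k)) := by
  classical
  have hinj : Function.Injective (algebraMap (Polynomial ℂ) (RatFunc ℂ)) :=
    RatFunc.algebraMap_injective ℂ
  obtain ⟨H, hH⟩ : ∃ H, H = Deg X (fun j => algebraMap (Polynomial ℂ) (RatFunc ℂ) (P j))
      (fun k => algebraMap (Polynomial ℂ) (RatFunc ℂ) (Q k)) := ⟨_, rfl⟩
  rw [← hH]
  obtain ⟨a, ha⟩ := Int.subgroup_cyclic H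
  have hdvd : ∀ δ ∈ H, a ∣ δ := by
    intro δ hδ
    rw [ha, AddSubgroup.mem_closure_singleton] at hδ
    obtain ⟨k, hk⟩ := hδ
    exact ⟨k, by rw [← hk, smul_eq_mul, mul_comm]⟩
  have hd : (X.d : ℤ) ∈ H := by
    obtain ⟨j, hj⟩ := Function.ne_iff.1 (gm_pt h).ne
    rw [hH]
    exact ⟨_, hj, Fr.x _ _ j⟩
  have hw : ∀ k, Q k ≠ 0 → (X.w k : ℤ) ∈ H := by
    intro k hk
    rw [hH]
    refine ⟨_, fun h0 => hk (hinj ?_), Fr.y _ _ k⟩
    rw [map_zero]
    exact h0
  obtain ⟨g, hg⟩ : ∃ g, g = a.natAbs := ⟨_, rfl⟩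
  have hgd : g ∣ X.d := by
    rw [hg]
    exact Int.natCast_dvd_natCast.1 ((Int.natAbs_dvd.2 (hdvd _ hd)))
  have hgw : ∀ k, Q k ≠ 0 → g ∣ X.w k := by
    intro k hk
    rw [hg]
    exact Int.natCast_dvd_natCast.1 ((Int.natAbs_dvd.2 (hdvd _ (hw k hk))))
  have hg0 : g ≠ 0 := by
    rintro h0
    rw [h0, zero_dvd_iff] at hgd
    exact X.hd.ne' hgd
  -- a general point
  obtain ⟨t0, ht0, hQt⟩ : ∃ t0 : ℂ, t0 ≠ 0 ∧ ∀ k, Q k ≠ 0 → (Q k).eval t0 ≠ 0 := by
    let R : Polynomial ℂ := Polynomial.X * ∏ k, (if Q k = 0 then 1 else Q k)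
    have hR : R ≠ 0 := by
      refine mul_ne_zero Polynomial.X_ne_zero (Finset.prod_ne_zero_iff.2 fun k _ => ?_)
      by_cases hk : Q k = 0
      · rw [if_pos hk]
        exact one_ne_zero
      · rw [if_neg hk]
        exact hk
    obtain ⟨t0, ht0⟩ : ∃ t0, R.eval t0 ≠ 0 := by
      by_contra hcon
      push Not at hcon
      exact hR (Polynomial.funext fun t => by rw [hcon t, Polynomial.eval_zero])
    rw [Polynomial.eval_mul, Polynomial.eval_X, Polynomial.eval_prod] at ht0
    refine ⟨t0, left_ne_zero_of_mul ht0, fun k hk => ?_⟩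
    have h1 := Finset.prod_ne_zero_iff.1 (right_ne_zero_of_mul ht0) k (Finset.mem_univ k)
    rwa [if_neg hk] at h1
  have hprim := Complex.isPrimitiveRoot_exp g hg0
  have hone : Complex.exp (2 * Real.pi * Complex.I / g) = 1 := by
    refine hF (at' P Q t0) (h.mem t0 ht0) _ ?_ ?_
    · obtain ⟨c, hc⟩ := hgd
      rw [hc, pow_mul, hprim.pow_eq_one, one_pow]
    · intro k
      by_cases hk : Q k = 0
      · have h1 : (at' P Q t0).2 k = 0 := by
          change (Q k).eval t0 = 0
          rw [hk, Polynomial.eval_zero]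
        rw [h1, mul_zero]
      · obtain ⟨c, hc⟩ := hgw k hk
        rw [hc, pow_mul, hprim.pow_eq_one, one_pow, one_mul]
  have hg1 : g = 1 := by
    rw [hone] at hprim
    exact hprim.unique IsPrimitiveRoot.one
  rw [ha, AddSubgroup.mem_closure_singleton]
  have h2 : a = 1 ∨ a = -1 := Int.natAbs_eq_iff.1 (by rw [← hg, hg1]) |>.imp id id
  rcases h2 with h2 | h2
  · exact ⟨1, by rw [h2]; rfl⟩
  · exact ⟨-1, by rw [h2]; rfl⟩

/-- the generic point of the image is not constant -/
theorem gm_ne_bot (h : X.GmCurve P Q) {τ : RatFunc ℂ}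
    {cx : Fin (n + 1) → ℂ} {cy : Fin r → ℂ}
    (hx : ∀ j, algebraMap (Polynomial ℂ) (RatFunc ℂ) (P j) = τ ^ X.d * algebraMap ℂ _ (cx j))
    (hy : ∀ k, algebraMap (Polynomial ℂ) (RatFunc ℂ) (Q k) = τ ^ X.w k * algebraMap ℂ _ (cy k)) :
    False := by
  have hinj : Function.Injective (algebraMap (Polynomial ℂ) (RatFunc ℂ)) :=
    RatFunc.algebraMap_injective ℂ
  have hcop := RatFunc.isCoprime_num_denom τ
  have hden : τ.denom ≠ 0 := RatFunc.denom_ne_zero τ
  have hC : ∀ c : ℂ, algebraMap ℂ (RatFunc ℂ) c =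
      algebraMap (Polynomial ℂ) (RatFunc ℂ) (Polynomial.C c) := by
    intro c
    rw [IsScalarTower.algebraMap_apply ℂ (Polynomial ℂ) (RatFunc ℂ)]
    rfl
  have hpoly : ∀ (p : Polynomial ℂ) (a : ℕ) (c : ℂ),
      algebraMap (Polynomial ℂ) (RatFunc ℂ) p = τ ^ a * algebraMap ℂ _ c →
      ∀ t : ℂ, p.eval t * τ.denom.eval t ^ a = c * τ.num.eval t ^ a := by
    intro p a c hp t
    have h1 : p * τ.denom ^ a = Polynomial.C c * τ.num ^ a := by
      apply hinj
      rw [map_mul, map_mul, map_pow, map_pow, hp, hC]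
      have h2 : τ = algebraMap (Polynomial ℂ) (RatFunc ℂ) τ.num /
          algebraMap (Polynomial ℂ) (RatFunc ℂ) τ.denom := (RatFunc.num_div_denom τ).symm
      have h3 : algebraMap (Polynomial ℂ) (RatFunc ℂ) τ.denom ≠ 0 := by
        intro h0
        exact hden (hinj (by rw [h0, map_zero]))
      have h4 : τ ^ a * algebraMap (Polynomial ℂ) (RatFunc ℂ) τ.denom ^ a =
          algebraMap (Polynomial ℂ) (RatFunc ℂ) τ.num ^ a := by
        rw [← mul_pow]
        congr 1
        exact (eq_div_iff h3).1 h2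
      rw [← h4]
      ring
    have h2 := congrArg (Polynomial.eval t) h1
    simpa [Polynomial.eval_mul, Polynomial.eval_pow, Polynomial.eval_C] using h2
  obtain ⟨t, u, ht, hu, hne⟩ := h.nonconst
  obtain ⟨j0, hj0⟩ : ∃ j, cx j ≠ 0 := by
    by_contra hcon
    push Not at hcon
    apply (gm_pt h).ne
    funext j
    rw [hx j, hcon j, map_zero, mul_zero]
    rfl
  have hreg : ∀ t : ℂ, t ≠ 0 → τ.denom.eval t ≠ 0 ∧ τ.num.eval t ≠ 0 := by
    intro t ht
    obtain ⟨A, B, hAB⟩ := hcop
    have h1 := congrArg (Polynomial.eval t) hAB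
    rw [Polynomial.eval_add, Polynomial.eval_mul, Polynomial.eval_mul, Polynomial.eval_one] at h1
    have h2 := hpoly (P j0) X.d (cx j0) (hx j0) t
    constructor
    · intro h0
      rw [h0, zero_pow X.hd.ne', mul_zero] at h2
      rcases mul_eq_zero.1 h2.symm with h3 | h3
      · exact hj0 h3
      · have h4 := pow_eq_zero_iff X.hd.ne' |>.1 h3
        rw [h0, h4, mul_zero, mul_zero, add_zero] at h1
        exact zero_ne_one h1
    · intro h0
      have hd0 : τ.denom.eval t ≠ 0 := by
        intro h3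
        rw [h0, h3, mul_zero, mul_zero, add_zero] at h1
        exact zero_ne_one h1
      apply (h.mem t ht).1
      funext j
      change (P j).eval t = 0
      have h3 := hpoly (P j) X.d (cx j) (hx j) t
      rw [h0, zero_pow X.hd.ne', mul_zero] at h3
      exact (mul_eq_zero.1 h3).resolve_right (pow_ne_zero _ hd0)
  apply hne
  obtain ⟨h1, h2⟩ := hreg t ht
  obtain ⟨h3, h4⟩ := hreg u hu
  refine ⟨(τ.num.eval u / τ.denom.eval u) / (τ.num.eval t / τ.denom.eval t),
    div_ne_zero (div_ne_zero h4 h3) (div_ne_zero h2 h1), ?_, fun k => ?_⟩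
  · funext j
    change (P j).eval u = (_ ^ X.d) * (P j).eval t
    have e1 := hpoly (P j) X.d (cx j) (hx j) t
    have e2 := hpoly (P j) X.d (cx j) (hx j) u
    have e3 : (P j).eval t = cx j * (τ.num.eval t / τ.denom.eval t) ^ X.d := by
      rw [div_pow]
      have := pow_ne_zero X.d h1
      field_simp
      linear_combination e1
    have e4 : (P j).eval u = cx j * (τ.num.eval u / τ.denom.eval u) ^ X.d := by
      rw [div_pow]
      have := pow_ne_zero X.d h3
      field_simp
      linear_combination e2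
    rw [e3, e4, div_pow (τ.num.eval u / τ.denom.eval u)]
    have := pow_ne_zero X.d (div_ne_zero h2 h1)
    field_simp
  · change (Q k).eval u = (_ ^ X.w k) * (Q k).eval t
    have e1 := hpoly (Q k) (X.w k) (cy k) (hy k) t
    have e2 := hpoly (Q k) (X.w k) (cy k) (hy k) u
    have e3 : (Q k).eval t = cy k * (τ.num.eval t / τ.denom.eval t) ^ X.w k := by
      rw [div_pow]
      have := pow_ne_zero (X.w k) h1
      field_simp
      linear_combination e1
    have e4 : (Q k).eval u = cy k * (τ.num.eval u / τ.denom.eval u) ^ X.w k := by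
      rw [div_pow]
      have := pow_ne_zero (X.w k) h3
      field_simp
      linear_combination e2
    rw [e3, e4, div_pow (τ.num.eval u / τ.denom.eval u)]
    have := pow_ne_zero (X.w k) (div_ne_zero h2 h1)
    field_simp

/-- **Images of the multiplicative group.** -/
theorem sub_of_gm (hF : X.Free) (h : X.GmCurve P Q) :
    ∃ (K : Type) (_ : Field K) (_ : Algebra ℂ K) (x : Fin (n + 1) → K) (y : Fin r → K),
      SubVar X K 1 x y ∧ ¬ GeneralType ℂ K 1 ∧
      ∀ G : Poly n r, X.Hom G → evK x y G = 0 → ∀ t : ℂ, ev (at' P Q t) G = 0 := by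
  have hinj : Function.Injective (algebraMap (Polynomial ℂ) (RatFunc ℂ)) :=
    RatFunc.algebraMap_injective ℂ
  obtain ⟨τ, x', y', hτ0, hx, hy, hpt, hev, hgen⟩ := repr (gm_pt h) (gm_deg hF h)
  revert x' y'
  generalize fieldOf X (fun j => algebraMap (Polynomial ℂ) (RatFunc ℂ) (P j))
      (fun k => algebraMap (Polynomial ℂ) (RatFunc ℂ) (Q k)) = L
  intro x' y' hx hy hpt hev hgen
  have hnb : L ≠ ⊥ := by
    intro hbot
    have hc0 : ∀ g ∈ L, ∃ c : ℂ, algebraMap ℂ (RatFunc ℂ) c = g := by
      rw [hbot]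
      intro g hg
      exact IntermediateField.mem_bot.1 hg
    have hc : ∀ f : L, ∃ c : ℂ, algebraMap ℂ (RatFunc ℂ) c = (f : RatFunc ℂ) :=
      fun f => hc0 f f.2
    choose c hc using hc
    exact gm_ne_bot h (τ := τ) (cx := fun j => c (x' j)) (cy := fun k => c (y' k))
      (fun j => by rw [hc]; exact hx j) (fun k => by rw [hc]; exact hy k)
  set g := RatFunc.Luroth.generator L with hg
  have hgE : g ∈ L := RatFunc.Luroth.generator_mem
  have htr : Transcendental ℂ g := RatFunc.Luroth.transcendental_generator hnb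
  have hgen' : L = ℂ⟮g⟯ := RatFunc.Luroth.eq_adjoin_generator
  set g' : L := ⟨g, hgE⟩ with hg'
  have htop : ℂ⟮g'⟯ = ⊤ := by
    apply IntermediateField.lift_injective L
    rw [IntermediateField.lift_top, IntermediateField.lift_adjoin]
    conv_rhs => rw [hgen']
    congr 1
    simp [hg']
  have htr' : Transcendental ℂ g' := by
    intro h
    apply htr
    exact h.algebraMap (A := RatFunc ℂ)
  have hff : IsFF ℂ L := by
    refine IsFF.of_finite htr' ?_
    rw [htop]
    apply FiniteDimensional.of_finrank_pos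
    rw [IntermediateField.finrank_top]
    exact one_pos
  refine ⟨L, inferInstance, inferInstance, x', y', ⟨hpt.ne, hpt.mem, hgen, ?_⟩, not_gt htop 1, ?_⟩
  · rw [IsFF.trdeg (k := ℂ) (K := L)]
    simp
  · rintro G ⟨D, hD⟩ h0 t
    have h1 := hev G D hD
    rw [h0, ZeroMemClass.coe_zero, mul_zero] at h1
    obtain ⟨e1, e2⟩ := eval_curve P Q G
    rw [← e2] at h1
    have h2 : MvPolynomial.aeval (Sum.elim P Q) G = (0 : Polynomial ℂ) :=
      hinj (by rw [map_zero]; exact h1)
    rw [← e1, h2, Polynomial.eval_zero]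

end Pool.Agent.TH152.CV
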