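import Pool.Agent.TH152.CV.Sub
import Pool.Agent.W602.GT.Gm

/-!
Function fields of subvarieties of weighted projective spaces.
-/

set_option autoImplicit false

namespace Pool.Agent.TH152.CV

open FF Pool.Agent.W603.LV Pool.Agent.W602.GT Pool.Agent.W602.Cov Pool.Agent.W602.Cov.Cover
open Pool.Agent.W602.Cov.G
open IntermediateField

variable {n q r : ℕ} (X : Cover n q r) {F : Type} [Field F] [Algebra ℂ F]

/-- `K` is the function field of a closed subvariety of `X` of dimension `w`, and `x`, `y` are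
weighted homogeneous coordinates of its generic point; the elements of `K` are the quotients of the
values at `(x, y)` of weighted homogeneous polynomials of the same degree. -/
structure SubVar (K : Type) [Field K] [Algebra ℂ K] (w : ℕ) (x : Fin (n + 1) → K)
    (y : Fin r → K) : Prop where
  ne : x ≠ 0
  mem : ∀ k, y k ^ X.m k = ∏ i, lf (X.ℓ i) x ^ X.e k i
  gen : ∀ f : K, ∃ (G H : Poly n r) (D : ℕ), X.WH G D ∧ X.WH H D ∧ evK x y H ≠ 0 ∧
    f = evK x y G / evK x y H
  dim : Algebra.trdeg ℂ K = w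

variable {X}

theorem SubVar.pt {K : Type} [Field K] [Algebra ℂ K] {w : ℕ} {x : Fin (n + 1) → K}
    {y : Fin r → K} (h : SubVar X K w x y) : PtK X x y := ⟨h.ne, h.mem⟩

variable (X) in
/-- quotients of weighted homogeneous polynomials, of degree `δ` -/
def Fr (x : Fin (n + 1) → F) (y : Fin r → F) (δ : ℤ) (f : F) : Prop :=
  ∃ (G H : Poly n r) (D D' : ℕ), X.WH G D ∧ X.WH H D' ∧ evK x y H ≠ 0 ∧
    f = evK x y G / evK x y H ∧ (D : ℤ) - D' = δ

theorem evK_mul (x : Fin (n + 1) → F) (y : Fin r → F) (G H : Poly n r) :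
    evK x y (G * H) = evK x y G * evK x y H := map_mul _ _ _

theorem evK_one (x : Fin (n + 1) → F) (y : Fin r → F) : evK x y (1 : Poly n r) = 1 := map_one _

theorem Fr.mul {x : Fin (n + 1) → F} {y : Fin r → F} {δ δ' : ℤ} {f g : F} (hf : Fr X x y δ f)
    (hg : Fr X x y δ' g) : Fr X x y (δ + δ') (f * g) := by
  obtain ⟨G, H, D, D', h1, h2, h3, h4, h5⟩ := hf
  obtain ⟨G', H', E, E', h1', h2', h3', h4', h5'⟩ := hg
  refine ⟨G * G', H * H', D + E, D' + E', h1.mul h1', h2.mul h2', ?_, ?_, ?_⟩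
  · rw [evK_mul]
    exact mul_ne_zero h3 h3'
  · rw [evK_mul, evK_mul, h4, h4']
    field_simp
  · push_cast
    linarith

theorem Fr.inv {x : Fin (n + 1) → F} {y : Fin r → F} {δ : ℤ} {f : F} (hf : Fr X x y δ f)
    (h0 : f ≠ 0) : Fr X x y (-δ) f⁻¹ := by
  obtain ⟨G, H, D, D', h1, h2, h3, h4, h5⟩ := hf
  refine ⟨H, G, D', D, h2, h1, ?_, ?_, by linarith⟩
  · intro h
    rw [h4, h, zero_div] at h0
    exact h0 rfl
  · rw [h4, inv_div]

theorem Fr.const (x : Fin (n + 1) → F) (y : Fin r → F) (c : ℂ) :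
    Fr X x y 0 (algebraMap ℂ F c) := by
  refine ⟨MvPolynomial.C c, 1, 0, 0, MvPolynomial.isWeightedHomogeneous_C _ _,
    MvPolynomial.isWeightedHomogeneous_one _ _, ?_, ?_, by simp⟩
  · rw [evK_one]
    exact one_ne_zero
  · rw [evK_one, div_one]
    unfold evK
    rw [MvPolynomial.aeval_C]

theorem Fr.add {x : Fin (n + 1) → F} {y : Fin r → F} {δ : ℤ} {f g : F} (hf : Fr X x y δ f)
    (hg : Fr X x y δ g) : Fr X x y δ (f + g) := by
  obtain ⟨G, H, D, D', h1, h2, h3, h4, h5⟩ := hf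
  obtain ⟨G', H', E, E', h1', h2', h3', h4', h5'⟩ := hg
  have hDE : D + E' = E + D' := by
    have : (D : ℤ) - D' = (E : ℤ) - E' := by rw [h5, h5']
    omega
  refine ⟨G * H' + G' * H, H * H', D + E', D' + E', (h1.mul h2').add (by
    rw [hDE]
    exact h1'.mul h2), h2.mul h2', ?_, ?_, ?_⟩
  · rw [evK_mul]
    exact mul_ne_zero h3 h3'
  · have h6 : evK x y (G * H' + G' * H) = evK x y G * evK x y H' + evK x y G' * evK x y H := by
      unfold evK
      rw [map_add, map_mul, map_mul]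
    rw [h6, evK_mul, h4, h4']
    field_simp
  · push_cast
    linarith

theorem Fr.zpow {x : Fin (n + 1) → F} {y : Fin r → F} {δ : ℤ} {f : F} (hf : Fr X x y δ f)
    (h0 : f ≠ 0) (m : ℤ) : Fr X x y (m * δ) (f ^ m) := by
  have hnat : ∀ m : ℕ, Fr X x y ((m : ℤ) * δ) (f ^ m) := by
    intro m
    induction m with
    | zero =>
      have := Fr.const (X := X) x y 1
      simpa using this
    | succ m ih =>
      have := ih.mul hf
      rw [← pow_succ] at this
      have e : ((m + 1 : ℕ) : ℤ) * δ = (m : ℤ) * δ + δ := by push_cast; ring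
      rw [e]
      exact this
  cases m with
  | ofNat m => simpa using hnat m
  | negSucc m =>
    have h1 := (hnat (m + 1)).inv (pow_ne_zero _ h0)
    rw [zpow_negSucc]
    have e : (Int.negSucc m) * δ = -(((m + 1 : ℕ) : ℤ) * δ) := by
      rw [Int.negSucc_eq]
      push_cast
      ring
    rw [e]
    exact h1

theorem Fr.x (x : Fin (n + 1) → F) (y : Fin r → F) (j : Fin (n + 1)) :
    Fr X x y (X.d : ℤ) (x j) := by
  refine ⟨MvPolynomial.X (Sum.inl j), 1, X.d, 0, ?_, MvPolynomial.isWeightedHomogeneous_one _ _,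
    ?_, ?_, by simp⟩
  · exact MvPolynomial.isWeightedHomogeneous_X ℂ (Sum.elim (fun _ => X.d) X.w) (Sum.inl j)
  · rw [evK_one]
    exact one_ne_zero
  · rw [evK_one, div_one]
    unfold evK
    rw [MvPolynomial.aeval_X]
    rfl

theorem Fr.y (x : Fin (n + 1) → F) (y : Fin r → F) (k : Fin r) :
    Fr X x y (X.w k : ℤ) (y k) := by
  refine ⟨MvPolynomial.X (Sum.inr k), 1, X.w k, 0, ?_,
    MvPolynomial.isWeightedHomogeneous_one _ _, ?_, ?_, by simp⟩
  · exact MvPolynomial.isWeightedHomogeneous_X ℂ (Sum.elim (fun _ => X.d) X.w) (Sum.inr k)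
  · rw [evK_one]
    exact one_ne_zero
  · rw [evK_one, div_one]
    unfold evK
    rw [MvPolynomial.aeval_X]
    rfl

variable (X) in
/-- the degrees of the nonzero quotients -/
def Deg (x : Fin (n + 1) → F) (y : Fin r → F) : AddSubgroup ℤ where
  carrier := {δ | ∃ f : F, f ≠ 0 ∧ Fr X x y δ f}
  add_mem' := by
    rintro δ δ' ⟨f, hf0, hf⟩ ⟨g, hg0, hg⟩
    exact ⟨f * g, mul_ne_zero hf0 hg0, hf.mul hg⟩
  zero_mem' := ⟨1, one_ne_zero, by simpa using Fr.const (X := X) x y 1⟩
  neg_mem' := by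
    rintro δ ⟨f, hf0, hf⟩
    exact ⟨f⁻¹, inv_ne_zero hf0, hf.inv hf0⟩

variable (X) in
/-- the function field -/
def fieldOf (x : Fin (n + 1) → F) (y : Fin r → F) : IntermediateField ℂ F where
  carrier := {f | Fr X x y 0 f}
  mul_mem' {f g} hf hg := by
    have := Fr.mul hf hg
    rwa [add_zero] at this
  one_mem' := by simpa using Fr.const (X := X) x y 1
  add_mem' {f g} hf hg := Fr.add hf hg
  zero_mem' := by simpa using Fr.const (X := X) x y 0
  algebraMap_mem' c := Fr.const x y c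
  inv_mem' f hf := by
    by_cases h0 : f = 0
    · rw [h0, inv_zero]
      simpa using Fr.const (X := X) x y 0
    · have := Fr.inv hf h0
      rwa [neg_zero] at this

theorem mem_fieldOf {x : Fin (n + 1) → F} {y : Fin r → F} {f : F} :
    f ∈ fieldOf X x y ↔ Fr X x y 0 f := Iff.rfl

/-- values of weighted homogeneous polynomials at scaled points -/
theorem evK_scale {x : Fin (n + 1) → F} {y : Fin r → F} {G : Poly n r} {D : ℕ} (hG : X.WH G D)
    (s : F) : evK (fun j => s ^ X.d * x j) (fun k => s ^ X.w k * y k) G = s ^ D * evK x y G := by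
  unfold evK
  rw [← aeval_weight hG]
  congr 1
  congr 1
  funext i
  rcases i with j | k <;> rfl

theorem lf_scale (φ : Form n) (s : F) (x : Fin (n + 1) → F) :
    lf φ (fun j => s * x j) = s * lf φ x := by
  unfold lf
  rw [Finset.mul_sum]
  exact Finset.sum_congr rfl fun j _ => by ring

/-- coordinates in the function field -/
theorem repr {x : Fin (n + 1) → F} {y : Fin r → F} (h : PtK X x y)
    (h1 : (1 : ℤ) ∈ Deg X x y) : ∃ (τ : F) (x' : Fin (n + 1) → fieldOf X x y)
      (y' : Fin r → fieldOf X x y), τ ≠ 0 ∧ (∀ j, x j = τ ^ X.d * x' j) ∧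
      (∀ k, y k = τ ^ X.w k * y' k) ∧ PtK X x' y' ∧
      (∀ G D, X.WH G D → (evK x y G : F) = τ ^ D * (evK x' y' G : fieldOf X x y)) ∧
      ∀ f : fieldOf X x y, ∃ (G H : Poly n r) (D : ℕ), X.WH G D ∧ X.WH H D ∧
        evK x' y' H ≠ 0 ∧ f = evK x' y' G / evK x' y' H := by
  obtain ⟨τ, hτ0, hτ⟩ := h1
  have hx : ∀ j, Fr X x y 0 (x j * (τ ^ X.d)⁻¹) := by
    intro j
    have h2 := (Fr.x (X := X) x y j).mul ((hτ.zpow hτ0 (X.d : ℤ)).inv (zpow_ne_zero _ hτ0))
    rw [mul_one, add_neg_cancel, zpow_natCast] at h2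
    exact h2
  have hy : ∀ k, Fr X x y 0 (y k * (τ ^ X.w k)⁻¹) := by
    intro k
    have h2 := (Fr.y (X := X) x y k).mul ((hτ.zpow hτ0 (X.w k : ℤ)).inv (zpow_ne_zero _ hτ0))
    rw [mul_one, add_neg_cancel, zpow_natCast] at h2
    exact h2
  let x' : Fin (n + 1) → fieldOf X x y := fun j => ⟨x j * (τ ^ X.d)⁻¹, hx j⟩
  let y' : Fin r → fieldOf X x y := fun k => ⟨y k * (τ ^ X.w k)⁻¹, hy k⟩
  have hxx : ∀ j, x j = τ ^ X.d * (x' j : F) := by
    intro j
    change x j = τ ^ X.d * (x j * (τ ^ X.d)⁻¹)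
    have := pow_ne_zero X.d hτ0
    field_simp
  have hyy : ∀ k, y k = τ ^ X.w k * (y' k : F) := by
    intro k
    change y k = τ ^ X.w k * (y k * (τ ^ X.w k)⁻¹)
    have := pow_ne_zero (X.w k) hτ0
    field_simp
  have hlf : ∀ φ : Form n, lf φ x = τ ^ X.d * ((lf φ x' : fieldOf X x y) : F) := by
    intro φ
    have e : x = fun j => τ ^ X.d * (x' j : F) := funext hxx
    conv_lhs => rw [e]
    rw [lf_scale]
    congr 1
    unfold lf
    push_cast
    rfl
  have hev : ∀ G D, X.WH G D → (evK x y G : F) = τ ^ D * (evK x' y' G : fieldOf X x y) := by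
    intro G D hG
    have e1 : x = fun j => τ ^ X.d * (x' j : F) := funext hxx
    have e2 : y = fun k => τ ^ X.w k * (y' k : F) := funext hyy
    have h3 := evK_scale (x := fun j => (x' j : F)) (y := fun k => (y' k : F)) hG τ
    rw [← e1, ← e2] at h3
    rw [h3]
    congr 1
    unfold evK
    have h4 := MvPolynomial.comp_aeval_apply (IntermediateField.val (fieldOf X x y))
      (f := Sum.elim x' y') G
    refine Eq.trans ?_ h4.symm
    congr 1
    congr 1
    funext i
    rcases i with j | k <;> rfl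
  refine ⟨τ, x', y', hτ0, hxx, hyy, ⟨?_, fun k => ?_⟩, hev, fun f => ?_⟩
  · obtain ⟨j, hj⟩ := Function.ne_iff.1 h.ne
    intro h0
    apply hj
    rw [hxx, h0]
    change τ ^ X.d * ((0 : fieldOf X x y) : F) = 0
    rw [ZeroMemClass.coe_zero, mul_zero]
  · apply Subtype.ext
    have h3 := h.mem k
    rw [hyy k, Finset.prod_congr rfl fun i _ => by rw [hlf (X.ℓ i)]] at h3
    have h4 : (τ ^ X.w k * (y' k : F)) ^ X.m k =
        τ ^ (X.d * ∑ i, X.e k i) * ((y' k : F)) ^ X.m k := by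
      rw [mul_pow, ← pow_mul, mul_comm (X.w k), X.hom k]
    have h5 : ∏ i, (τ ^ X.d * ((lf (X.ℓ i) x' : fieldOf X x y) : F)) ^ X.e k i =
        τ ^ (X.d * ∑ i, X.e k i) * ∏ i, ((lf (X.ℓ i) x' : fieldOf X x y) : F) ^ X.e k i := by
      simp only [mul_pow]
      rw [Finset.prod_mul_distrib, Finset.prod_pow_eq_pow_sum, pow_mul]
    rw [h4, h5] at h3
    have h6 := mul_left_cancel₀ (pow_ne_zero _ hτ0) h3
    push_cast
    exact h6
  · obtain ⟨G, H, D, D', h2, h3, h4, h5, h6⟩ := mem_fieldOf.1 f.2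
    obtain rfl : D = D' := by omega
    have h7 := hev H D h3
    have h8 : evK x' y' H ≠ 0 := by
      intro h0
      apply h4
      rw [h7, h0, ZeroMemClass.coe_zero, mul_zero]
    refine ⟨G, H, D, h2, h3, h8, Subtype.ext ?_⟩
    rw [h5, hev G D h2, h7, mul_div_mul_left _ _ (pow_ne_zero D hτ0)]
    push_cast
    rfl

end Pool.Agent.TH152.CV
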