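import Pool.Agent.TH152.CV.Special

/-!
Rational curves through the split points of an abelian cover.
-/

set_option autoImplicit false

namespace Pool.Agent.TH152.CV

open FF Pool.Agent.W603.LV Pool.Agent.W602.GT Pool.Agent.W602.Cov Pool.Agent.W602.Cov.Cover
open Pool.Agent.W602.Cov.G

variable {n q r : ℕ} {X : Cover n q r}

theorem form_eq (φ : Form n) (v : Fin (n + 1) → ℂ) : φ v = ∑ j, φ (Pi.single j 1) * v j := by
  rw [LinearMap.pi_apply_eq_sum_univ φ]
  refine Finset.sum_congr rfl fun j _ => ?_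
  rw [smul_eq_mul, mul_comm]
  congr 2
  funext k
  simp [Pi.single_apply, eq_comm]

theorem lf_comb {F : Type} [Field F] [Algebra ℂ F] (φ : Form n) (x1 x2 : Fin (n + 1) → ℂ)
    (s t : F) : lf φ (fun j => s * algebraMap ℂ F (x1 j) + t * algebraMap ℂ F (x2 j)) =
      s * algebraMap ℂ F (φ x1) + t * algebraMap ℂ F (φ x2) := by
  unfold lf
  rw [form_eq φ x1, form_eq φ x2, map_sum, map_sum, Finset.mul_sum, Finset.mul_sum,
    ← Finset.sum_add_distrib]
  refine Finset.sum_congr rfl fun j _ => ?_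
  rw [map_mul, map_mul]
  ring

/-- a rational curve through a split point -/
theorem split_family {v : (Fin (n + 1) → ℂ) × (Fin r → ℂ)} (hv : X.Split v) (M : ℕ) :
    ∃ (x1 x2 : Fin (n + 1) → ℂ) (D N : ℕ) (a b : Fin r → ℕ), LinearIndependent ℂ ![x1, x2] ∧
      v.1 = x1 + x2 ∧ N = X.d * D ∧ M < N ∧ (∀ k, a k + b k = D * X.w k) ∧
      ∀ (F : Type) [Field F] [Algebra ℂ F] (s t : F) (k : Fin r),
        (algebraMap ℂ F (v.2 k) * s ^ a k * t ^ b k) ^ X.m k =
          ∏ i, lf (X.ℓ i) (fun j => s ^ N * algebraMap ℂ F (x1 j) +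
            t ^ N * algebraMap ℂ F (x2 j)) ^ X.e k i := by
  classical
  obtain ⟨hvP, x1, x2, hli, hsum, hk⟩ := hv
  obtain ⟨E, hE⟩ : ∃ E, E = ∏ k, X.m k := ⟨_, rfl⟩
  have hEpos : 0 < E := by
    rw [hE]
    exact Finset.prod_pos fun k _ => X.hm k
  obtain ⟨D, hD⟩ : ∃ D, D = E * (M + 1) := ⟨_, rfl⟩
  obtain ⟨N, hN⟩ : ∃ N, N = X.d * D := ⟨_, rfl⟩
  have hmN : ∀ k, X.m k ∣ N := by
    intro k
    rw [hN, hD, hE]
    exact Dvd.dvd.mul_left (Dvd.dvd.mul_right (Finset.dvd_prod_of_mem _ (Finset.mem_univ k)) _) _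
  obtain ⟨I, hI⟩ : ∃ I : Finset (Fin q), I = Finset.univ.filter fun i => X.ℓ i x2 = 0 := ⟨_, rfl⟩
  have hmemI : ∀ i, i ∈ I ↔ X.ℓ i x2 = 0 := fun i => by rw [hI]; simp
  refine ⟨x1, x2, D, N, fun k => N / X.m k * ∑ i ∈ I, X.e k i,
    fun k => N / X.m k * ∑ i ∈ Iᶜ, X.e k i, hli, hsum, hN, ?_, fun k => ?_, ?_⟩
  · rw [hN, hD]
    have h1 : 1 * (1 * (M + 1)) ≤ X.d * (E * (M + 1)) :=
      Nat.mul_le_mul X.hd (Nat.mul_le_mul hEpos le_rfl)
    omega
  · rw [← mul_add, Finset.sum_add_sum_compl]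
    have h1 : X.m k * (N / X.m k * ∑ i, X.e k i) = X.m k * (D * X.w k) := by
      calc X.m k * (N / X.m k * ∑ i, X.e k i) = (X.m k * (N / X.m k)) * ∑ i, X.e k i := by ring
        _ = N * ∑ i, X.e k i := by rw [Nat.mul_div_cancel' (hmN k)]
        _ = D * (X.d * ∑ i, X.e k i) := by rw [hN]; ring
        _ = D * (X.m k * X.w k) := by rw [X.hom k]
        _ = X.m k * (D * X.w k) := by ring
    exact Nat.eq_of_mul_eq_mul_left (X.hm k) h1
  · intro F _ _ s t k
    have hyk : v.2 k ^ X.m k = ∏ i, X.ℓ i (x1 + x2) ^ X.e k i := by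
      rw [← hsum]
      exact hvP.2 k
    simp only [lf_comb]
    rw [mul_pow, mul_pow, ← map_pow, hyk, ← pow_mul, ← pow_mul]
    rcases hk k with ⟨i, hi, h1, h2⟩ | hk
    · have e3 : ∏ i, X.ℓ i (x1 + x2) ^ X.e k i = 0 := by
        apply Finset.prod_eq_zero (Finset.mem_univ i)
        rw [map_add, h1, h2, add_zero, zero_pow hi.ne']
      have e4 : ∏ i, (s ^ N * algebraMap ℂ F (X.ℓ i x1) + t ^ N * algebraMap ℂ F (X.ℓ i x2)) ^
          X.e k i = 0 := by
        apply Finset.prod_eq_zero (Finset.mem_univ i)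
        rw [h1, h2, map_zero, mul_zero, mul_zero, add_zero, zero_pow hi.ne']
      rw [e3, e4, map_zero, zero_mul, zero_mul]
    · have e3 : ∀ i, (s ^ N * algebraMap ℂ F (X.ℓ i x1) + t ^ N * algebraMap ℂ F (X.ℓ i x2)) ^
          X.e k i = (if i ∈ I then s ^ N else t ^ N) ^ X.e k i *
            algebraMap ℂ F (X.ℓ i (x1 + x2)) ^ X.e k i := by
        intro i
        by_cases hi0 : X.e k i = 0
        · rw [hi0]; simp
        rw [← mul_pow]
        congr 1
        rw [map_add, map_add]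
        by_cases hi : i ∈ I
        · have h2 : X.ℓ i x2 = 0 := (hmemI i).1 hi
          rw [if_pos hi, h2, map_zero]
          ring
        · have h2 : X.ℓ i x2 ≠ 0 := fun h => hi ((hmemI i).2 h)
          have h1 := (hk i (Nat.pos_of_ne_zero hi0)).resolve_right h2
          rw [if_neg hi, h1, map_zero]
          ring
      rw [Finset.prod_congr rfl fun i _ => e3 i, Finset.prod_mul_distrib, map_prod]
      have e5 : ∏ i, algebraMap ℂ F (X.ℓ i (x1 + x2) ^ X.e k i) =
          ∏ i, algebraMap ℂ F (X.ℓ i (x1 + x2)) ^ X.e k i :=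
        Finset.prod_congr rfl fun i _ => map_pow _ _ _
      have e1 : ∏ i, (if i ∈ I then s ^ N else t ^ N) ^ X.e k i =
          (∏ i ∈ I, (s ^ N) ^ X.e k i) * ∏ i ∈ Iᶜ, (t ^ N) ^ X.e k i := by
        rw [← Finset.prod_mul_prod_compl I]
        congr 1
        · exact Finset.prod_congr rfl fun i hi => by rw [if_pos hi]
        · exact Finset.prod_congr rfl fun i hi => by rw [if_neg (Finset.mem_compl.1 hi)]
      have e2 : ∀ c : ℕ, N / X.m k * c * X.m k = N * c := by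
        intro c
        calc N / X.m k * c * X.m k = (X.m k * (N / X.m k)) * c := by ring
          _ = N * c := by rw [Nat.mul_div_cancel' (hmN k)]
      rw [e5, e1, Finset.prod_pow_eq_pow_sum, Finset.prod_pow_eq_pow_sum, ← pow_mul, ← pow_mul,
        e2, e2]
      ring

end Pool.Agent.TH152.CV
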