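import Pool.Agent.TH152.CV.Curve
import Pool.Agent.TH152.DS.Code
import Pool.Agent.W602.GT.Circ
import Pool.Agent.W602.Cov.GDefs

/-!
Abelian covers of projective space with large exponents: subvarieties.
-/

set_option autoImplicit false

namespace Pool.Agent.TH152.CV

open FF Pool.Agent.W603.LV Pool.Agent.W602.GT Pool.Agent.W602.Cov Pool.Agent.W602.Cov.Cover
open Pool.Agent.W602.Cov.G
open Pool.Agent.W168.CG.PGR Pool.Agent.TH152.AC Pool.Agent.TH152.HY Pool.Agent.TH152.DS
open IntermediateField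

variable {n q r : ℕ} {X : Cover n q r} {K : Type} [Field K] [Algebra ℂ K]

/-- `x` and `y` are weighted homogeneous coordinates, in the field `K`, of a point of `X`. -/
structure PtK (X : Cover n q r) (x : Fin (n + 1) → K) (y : Fin r → K) : Prop where
  ne : x ≠ 0
  mem : ∀ k, y k ^ X.m k = ∏ i, lf (X.ℓ i) x ^ X.e k i

/-- the values of weighted homogeneous polynomials -/
theorem aeval_weight {σ : Type} [Fintype σ] {A : Type} [CommRing A] [Algebra ℂ A] {w : σ → ℕ}
    {G : MvPolynomial σ ℂ} {D : ℕ} (hG : MvPolynomial.IsWeightedHomogeneous w G D) (s : A)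
    (z : σ → A) : MvPolynomial.aeval (fun i => s ^ w i * z i) G = s ^ D * MvPolynomial.aeval z G := by
  rw [MvPolynomial.aeval_def, MvPolynomial.aeval_def, MvPolynomial.eval₂_eq',
    MvPolynomial.eval₂_eq', Finset.mul_sum]
  refine Finset.sum_congr rfl fun α hα => ?_
  have h1 := hG (MvPolynomial.mem_support_iff.1 hα)
  rw [Finsupp.weight_apply, Finsupp.sum_fintype _ _ (by simp)] at h1
  have h2 : ∏ i, (s ^ w i * z i) ^ α i = s ^ D * ∏ i, z i ^ α i := by
    rw [← h1, ← Finset.prod_pow_eq_pow_sum, ← Finset.prod_mul_distrib]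
    refine Finset.prod_congr rfl fun i _ => ?_
    rw [mul_pow, ← pow_mul, smul_eq_mul, mul_comm (w i)]
  rw [h2]
  ring

/-- multiplicities are compatible with the equations -/
theorem compat (hF : X.Free) {x : Fin (n + 1) → K} {y : Fin r → K} (h : PtK X x y)
    (P : Place ℂ K) (a : ℤ) (v : Fin q → ℕ) {xb : Fin (n + 1) → ℂ} (hxb : xb ≠ 0)
    (h0 : ∀ i, lf (X.ℓ i) x = 0 → X.ℓ i xb = 0) (h1 : ∀ i, v i ≠ 0 → X.ℓ i xb = 0)
    (hord : ∀ k, y k ≠ 0 → ∀ i, 0 < X.e k i → P.ord (lf (X.ℓ i) x) = a + v i)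
    (k : Fin r) (hk : y k ≠ 0) : X.m k ∣ ∑ i, X.e k i * v i := by
  have hd0 : (X.d : ℤ) ≠ 0 := by exact_mod_cast X.hd.ne'
  have hdC : (X.d : ℂ) ≠ 0 := by exact_mod_cast X.hd.ne'
  have hlf : ∀ k, y k ≠ 0 → ∀ i, 0 < X.e k i → lf (X.ℓ i) x ≠ 0 := by
    intro k hk i hi h2
    have h3 := h.mem k
    rw [Finset.prod_eq_zero (Finset.mem_univ i) (by rw [h2, zero_pow hi.ne'])] at h3
    exact hk (pow_eq_zero_iff (X.hm k).ne' |>.1 h3)
  have key : ∀ k, y k ≠ 0 → (X.d : ℤ) * ∑ i, (X.e k i : ℤ) * (v i : ℤ) =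
      (X.m k : ℤ) * ((X.d : ℤ) * P.ord (y k) - a * (X.w k : ℤ)) := by
    intro k hk
    have h2 := congrArg P.ord (h.mem k)
    have h3 : ∀ i, lf (X.ℓ i) x ^ X.e k i ≠ 0 := by
      intro i
      rcases Nat.eq_zero_or_pos (X.e k i) with h4 | h4
      · rw [h4, pow_zero]
        exact one_ne_zero
      · exact pow_ne_zero _ (hlf k hk i h4)
    rw [P.ord_pow, ord_prod' P _ _ (fun i _ => h3 i)] at h2
    have h4 : ∀ i, P.ord (lf (X.ℓ i) x ^ X.e k i) = a * (X.e k i : ℤ) +
        (X.e k i : ℤ) * (v i : ℤ) := by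
      intro i
      rw [P.ord_pow]
      rcases Nat.eq_zero_or_pos (X.e k i) with h5 | h5
      · rw [h5]
        simp
      · rw [hord k hk i h5]
        ring
    rw [Finset.sum_congr rfl fun i _ => h4 i, Finset.sum_add_distrib, ← Finset.mul_sum] at h2
    have h5 : (X.m k : ℤ) * (X.w k : ℤ) = (X.d : ℤ) * ∑ i, (X.e k i : ℤ) := by
      have := X.hom k
      exact_mod_cast this
    linear_combination (-(X.d : ℤ)) * h2 + a * h5
  -- `d` divides `a`
  have hda : (X.d : ℤ) ∣ a := by
    by_contra hnd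
    set z : ℂ := Complex.exp (2 * Real.pi * Complex.I * ((a : ℂ) / (X.d : ℂ))) with hz
    have hzd : z ^ X.d = 1 := by
      rw [hz, ← Complex.exp_nat_mul, Complex.exp_eq_one_iff]
      refine ⟨a, ?_⟩
      field_simp
    have hz1 : z ≠ 1 := by
      intro h1
      rw [hz, Complex.exp_eq_one_iff] at h1
      obtain ⟨N, hN⟩ := h1
      apply hnd
      refine ⟨N, ?_⟩
      have h2 : (a : ℂ) = (X.d : ℂ) * (N : ℂ) := by
        have hpi : (2 * (Real.pi : ℂ) * Complex.I) ≠ 0 := Complex.two_pi_I_ne_zero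
        have h3 : (2 * (Real.pi : ℂ) * Complex.I) * ((a : ℂ) / (X.d : ℂ)) =
            (2 * (Real.pi : ℂ) * Complex.I) * (N : ℂ) := by
          rw [hN]
          ring
        have h4 := mul_left_cancel₀ hpi h3
        rw [div_eq_iff hdC] at h4
        rw [h4]
        ring
      exact_mod_cast h2
    have hzw : ∀ k, (X.d : ℤ) ∣ a * (X.w k : ℤ) → z ^ X.w k = 1 := by
      rintro k ⟨N, hN⟩
      rw [hz, ← Complex.exp_nat_mul, Complex.exp_eq_one_iff]
      refine ⟨N, ?_⟩
      have h2 : (a : ℂ) * (X.w k : ℂ) = (X.d : ℂ) * (N : ℂ) := by exact_mod_cast hN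
      have h3 : (X.w k : ℂ) * ((2 * (Real.pi : ℂ) * Complex.I) * ((a : ℂ) / (X.d : ℂ))) =
          (2 * (Real.pi : ℂ) * Complex.I) * (((a : ℂ) * (X.w k : ℂ)) / (X.d : ℂ)) := by ring
      rw [h3, h2, mul_div_cancel_left₀ _ hdC]
      ring
    have hyb : ∀ k, ∃ t : ℂ, t ^ X.m k = ∏ i, X.ℓ i xb ^ X.e k i ∧ z ^ X.w k * t = t := by
      intro k
      by_cases hbad : ∃ i, 0 < X.e k i ∧ X.ℓ i xb = 0
      · obtain ⟨i, hi, hib⟩ := hbad
        refine ⟨0, ?_, by rw [mul_zero]⟩
        rw [zero_pow (X.hm k).ne']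
        symm
        apply Finset.prod_eq_zero (Finset.mem_univ i)
        rw [hib, zero_pow hi.ne']
      · push Not at hbad
        have hyk : y k ≠ 0 := by
          intro hyk
          have h2 := h.mem k
          rw [hyk, zero_pow (X.hm k).ne'] at h2
          obtain ⟨i, -, hi⟩ := Finset.prod_eq_zero_iff.1 h2.symm
          have h3 : X.e k i ≠ 0 := by
            intro h3
            rw [h3, pow_zero] at hi
            exact one_ne_zero hi
          exact hbad i (Nat.pos_of_ne_zero h3) (h0 i (pow_eq_zero_iff h3 |>.1 hi))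
        have hsum : ∑ i, (X.e k i : ℤ) * (v i : ℤ) = 0 := by
          refine Finset.sum_eq_zero fun i _ => ?_
          rcases Nat.eq_zero_or_pos (X.e k i) with h5 | h5
          · rw [h5]
            simp
          · have h6 : v i = 0 := by
              by_contra h7
              exact hbad i h5 (h1 i h7)
            rw [h6]
            simp
        have hk' := key k hyk
        rw [hsum, mul_zero] at hk'
        have hm0 : (X.m k : ℤ) ≠ 0 := by exact_mod_cast (X.hm k).ne'
        have h6 := (mul_eq_zero.mp hk'.symm).resolve_left hm0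
        obtain ⟨t, ht⟩ := IsAlgClosed.exists_pow_nat_eq (∏ i, X.ℓ i xb ^ X.e k i) (X.hm k)
        exact ⟨t, ht, by rw [hzw k ⟨P.ord (y k), by linarith⟩, one_mul]⟩
    choose yb hyb1 hyb2 using hyb
    exact hz1 (hF (xb, yb) ⟨hxb, hyb1⟩ z hzd hyb2)
  obtain ⟨a', ha'⟩ := hda
  have h7 : (∑ i, (X.e k i : ℤ) * (v i : ℤ)) =
      (X.m k : ℤ) * (P.ord (y k) - a' * (X.w k : ℤ)) := by
    have hk := key k hk
    apply mul_left_cancel₀ hd0
    rw [hk, ha']
    ring
  have h8 : (X.m k : ℤ) ∣ ((∑ i, X.e k i * v i : ℕ) : ℤ) := by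
    push_cast
    exact ⟨_, h7⟩
  exact_mod_cast h8

/-- the quotients of values of weighted homogeneous polynomials are algebraic over the field
generated by the ratios of the coordinates `x` -/
theorem alg_aux {Ω : Type} [Field Ω] [Algebra ℂ Ω] [Algebra K Ω] [IsScalarTower ℂ K Ω]
    [IsAlgClosed Ω] {x : Fin (n + 1) → K} {y : Fin r → K} (h : PtK X x y)
    (hgen : ∀ f : K, ∃ (G H : Poly n r) (D : ℕ), X.WH G D ∧ X.WH H D ∧ evK x y H ≠ 0 ∧
      f = evK x y G / evK x y H) :
    Algebra.IsAlgebraic (Pool.Agent.W602.GT.coords ℂ x) K := by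
  obtain ⟨j0, hj0'⟩ := Function.ne_iff.1 h.ne
  have hj0 : x j0 ≠ 0 := hj0'
  let E := Pool.Agent.W602.GT.coords ℂ x
  have hinj : Function.Injective (algebraMap K Ω) := (algebraMap K Ω).injective
  obtain ⟨s, hs⟩ := IsAlgClosed.exists_pow_nat_eq (algebraMap K Ω (x j0)) X.hd
  have hs0 : s ≠ 0 := by
    rintro rfl
    rw [zero_pow X.hd.ne'] at hs
    exact hj0 ((map_eq_zero _).1 hs.symm)
  let A : IntermediateField E Ω := algebraicClosure E Ω
  have hEA : ∀ f : E, algebraMap K Ω (f : K) ∈ A := fun f => A.algebraMap_mem f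
  let z : Fin (n + 1) ⊕ Fin r → Ω := Sum.elim (fun j => algebraMap K Ω (x j / x j0))
    (fun k => algebraMap K Ω (y k) / s ^ X.w k)
  have hxE : ∀ j, x j / x j0 ∈ E := fun j => subset_adjoin ℂ _ ⟨j, j0, hj0, rfl⟩
  have hlE : ∀ φ : Form n, lf φ x / x j0 ∈ E := by
    intro φ
    unfold lf
    rw [Finset.sum_div]
    refine sum_mem fun j _ => ?_
    rw [mul_div_assoc]
    exact mul_mem (_root_.algebraMap_mem E _) (hxE j)
  have hz : ∀ i, z i ∈ A := by
    rintro (j | k)
    · exact hEA ⟨_, hxE j⟩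
    · change algebraMap K Ω (y k) / s ^ X.w k ∈ A
      have h1 : (algebraMap K Ω (y k) / s ^ X.w k) ^ X.m k =
          algebraMap K Ω (∏ i, (lf (X.ℓ i) x / x j0) ^ X.e k i) := by
        rw [div_pow, ← map_pow, h.mem k, ← pow_mul, mul_comm (X.w k), X.hom k, pow_mul, hs,
          ← map_pow, ← map_div₀]
        congr 1
        rw [← Finset.prod_pow_eq_pow_sum, ← Finset.prod_div_distrib]
        exact Finset.prod_congr rfl fun i _ => by rw [div_pow]
      have h2 : ∏ i, (lf (X.ℓ i) x / x j0) ^ X.e k i ∈ E :=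
        prod_mem fun i _ => pow_mem (hlE _) _
      have h3 : (algebraMap K Ω (y k) / s ^ X.w k) ^ X.m k ∈ A := by
        rw [h1]
        exact hEA ⟨_, h2⟩
      rw [mem_algebraicClosure_iff] at h3 ⊢
      exact IsAlgebraic.of_pow (X.hm k) h3
  have hval : ∀ G : Poly n r, MvPolynomial.aeval z G ∈ A := by
    intro G
    induction G using MvPolynomial.induction_on with
    | C a =>
      rw [MvPolynomial.aeval_C]
      have : algebraMap ℂ Ω a = algebraMap K Ω ((algebraMap ℂ E a : E) : K) := by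
        rw [IsScalarTower.algebraMap_apply ℂ K Ω]
        rfl
      rw [this]
      exact hEA _
    | add p q hp hq => rw [map_add]; exact add_mem hp hq
    | mul_X p i hp => rw [map_mul, MvPolynomial.aeval_X]; exact mul_mem hp (hz i)
  have hev : ∀ (G : Poly n r) (D : ℕ), X.WH G D →
      algebraMap K Ω (evK x y G) = s ^ D * MvPolynomial.aeval z G := by
    intro G D hG
    rw [← aeval_weight hG]
    unfold evK
    have h1 : algebraMap K Ω (MvPolynomial.aeval (Sum.elim x y) G) =
        MvPolynomial.aeval (fun i => algebraMap K Ω (Sum.elim x y i)) G := by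
      have := MvPolynomial.comp_aeval_apply (IsScalarTower.toAlgHom ℂ K Ω) (f := Sum.elim x y) G
      exact this
    rw [h1]
    congr 1
    congr 1
    funext i
    rcases i with j | k
    · simp only [Sum.elim_inl, z]
      rw [hs, ← map_mul]
      congr 1
      field_simp
    · simp only [Sum.elim_inr, z]
      field_simp
  refine ⟨fun f => ?_⟩
  obtain ⟨G, H, D, hG, hH, hH0, rfl⟩ := hgen f
  have h1 : algebraMap K Ω (evK x y G / evK x y H) ∈ A := by
    rw [map_div₀, hev G D hG, hev H D hH, mul_div_mul_left _ _ (pow_ne_zero D hs0)]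
    exact div_mem (hval G) (hval H)
  rw [mem_algebraicClosure_iff] at h1
  exact (isAlgebraic_algebraMap_iff hinj).1 h1

theorem alg_of_gen {x : Fin (n + 1) → K} {y : Fin r → K} (h : PtK X x y)
    (hgen : ∀ f : K, ∃ (G H : Poly n r) (D : ℕ), X.WH G D ∧ X.WH H D ∧ evK x y H ≠ 0 ∧
      f = evK x y G / evK x y H) :
    Algebra.IsAlgebraic (Pool.Agent.W602.GT.coords ℂ x) K :=
  alg_aux (Ω := AlgebraicClosure K) h hgen

end Pool.Agent.TH152.CV
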