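import Pool.Agent.TH152.CV.Hyp
import Pool.Agent.TH182.TC.Core

/-!
Abelian covers of projective space with large exponents: maps from complex tori.
-/

set_option autoImplicit false

namespace Pool.Agent.TH152.CV

open Pool.Agent.W602.Cov Pool.Agent.W602.Cov.Cover Pool.Agent.W602.Cov.G
open Filter Topology Set
open scoped PeriodPair

variable {n q r : ℕ}

/-- A holomorphic map from the complex torus `ℂ / (ℤ w1 + ℤ w2)` to `X`: the point `f z` of `X` is
given near any `z0` by weighted homogeneous coordinates which are holomorphic at `z0`, and it is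
invariant under the translations by `w1` and `w2`. -/
structure TorusMap (X : Cover n q r) (w1 w2 : ℂ) (f : ℂ → (Fin (n + 1) → ℂ) × (Fin r → ℂ)) :
    Prop where
  mem : ∀ z, f z ∈ X.Pts
  holo : ∀ z, ∃ g : ℂ → (Fin (n + 1) → ℂ) × (Fin r → ℂ), AnalyticAt ℂ g z ∧
    ∀ᶠ w in 𝓝 z, X.Same (g w) (f w)
  per1 : ∀ z, X.Same (f z) (f (z + w1))
  per2 : ∀ z, X.Same (f z) (f (z + w2))

/-- Every holomorphic map from a one-dimensional complex torus to `X` is constant. -/
def EllRigid (X : Cover n q r) : Prop :=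
  ∀ w1 w2 : ℂ, LinearIndependent ℝ ![w1, w2] → ∀ f, TorusMap X w1 w2 f →
    ∀ z w, X.Same (f z) (f w)

variable {X : Cover n q r}

theorem same_refl (v : (Fin (n + 1) → ℂ) × (Fin r → ℂ)) : X.Same v v :=
  ⟨1, one_ne_zero, by rw [one_pow, one_smul], fun k => by rw [one_pow, one_mul]⟩

/-- Every split point lies on the image of a nonconstant holomorphic map from a one-dimensional
complex torus. -/
theorem torus_of_split {u : (Fin (n + 1) → ℂ) × (Fin r → ℂ)} (hu : X.Split u) :
    ∃ (w1 w2 : ℂ) (f : ℂ → (Fin (n + 1) → ℂ) × (Fin r → ℂ)), LinearIndependent ℝ ![w1, w2] ∧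
      TorusMap X w1 w2 f ∧ (∃ z w, ¬ X.Same (f z) (f w)) ∧ ∃ z, f z = u := by
  classical
  obtain ⟨x1, x2, D, N, a, b, hli, husum, hN, hBN, hab, hF⟩ := split_family hu 0
  obtain ⟨φ, ψ, h1, h2, h3, h4⟩ := exists_dual hli
  let L : PeriodPair := ⟨1, Complex.I, by
    have := Complex.basisOneI.linearIndependent
    rwa [Complex.coe_basisOneI] at this⟩
  obtain ⟨z0, hz0, hpz0⟩ : ∃ z0, z0 ∉ L.lattice ∧ ℘[L] z0 ≠ 0 := by
    by_contra hcon
    push Not at hcon
    apply Pool.Agent.TH182.TC.infinite_range L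
    refine (Set.finite_singleton (0 : ℂ)).subset ?_
    rintro _ ⟨w, hw, rfl⟩
    exact hcon w hw
  obtain ⟨κ, hκ⟩ : ∃ κ, κ = (℘[L] z0)⁻¹ := ⟨_, rfl⟩
  have hκ0 : κ ≠ 0 := by
    rw [hκ]
    exact inv_ne_zero hpz0
  let H : ℂ → ℂ → (Fin (n + 1) → ℂ) × (Fin r → ℂ) := fun s t =>
    (s ^ N • x1 + t ^ N • x2, fun k => u.2 k * s ^ a k * t ^ b k)
  have hH1 : H 1 1 = u := by
    refine Prod.ext ?_ ?_
    · change (1 : ℂ) ^ N • x1 + (1 : ℂ) ^ N • x2 = u.1
      rw [one_pow, one_smul, one_smul, husum]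
    · funext k
      change u.2 k * 1 ^ a k * 1 ^ b k = u.2 k
      rw [one_pow, one_pow, mul_one, mul_one]
  have hφH : ∀ s t, φ (H s t).1 = s ^ N := by
    intro s t
    change φ (s ^ N • x1 + t ^ N • x2) = _
    rw [map_add, map_smul, map_smul, h1, h2, smul_eq_mul, smul_eq_mul, mul_one, mul_zero, add_zero]
  have hψH : ∀ s t, ψ (H s t).1 = t ^ N := by
    intro s t
    change ψ (s ^ N • x1 + t ^ N • x2) = _
    rw [map_add, map_smul, map_smul, h3, h4, smul_eq_mul, smul_eq_mul, mul_one, mul_zero, zero_add]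
  have hHmem : ∀ s t, s ≠ 0 ∨ t ≠ 0 → H s t ∈ X.Pts := by
    intro s t hst
    refine ⟨fun h0 => ?_, fun k => ?_⟩
    · rcases hst with hs | ht
      · have h5 := hφH s t
        rw [h0, map_zero] at h5
        exact pow_ne_zero N hs h5.symm
      · have h5 := hψH s t
        rw [h0, map_zero] at h5
        exact pow_ne_zero N ht h5.symm
    · have h5 := hF ℂ s t k
      refine h5.trans (Finset.prod_congr rfl fun i _ => ?_)
      rw [lf_comb]
      change _ = X.ℓ i (s ^ N • x1 + t ^ N • x2) ^ X.e k i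
      rw [map_add, map_smul, map_smul]
      rfl
  have hHs : ∀ c s t, c ≠ 0 → X.Same (H (c * s) (c * t)) (H s t) := by
    intro c s t hc
    refine ⟨(c ^ D)⁻¹, inv_ne_zero (pow_ne_zero _ hc), ?_, fun k => ?_⟩
    · have e : (c ^ D) ^ X.d = c ^ N := by rw [← pow_mul, hN, mul_comm]
      change s ^ N • x1 + t ^ N • x2 =
        ((c ^ D)⁻¹) ^ X.d • ((c * s) ^ N • x1 + (c * t) ^ N • x2)
      rw [inv_pow, e, mul_pow, mul_pow, mul_smul, mul_smul, ← smul_add, smul_smul,
        inv_mul_cancel₀ (pow_ne_zero _ hc), one_smul]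
    · change u.2 k * s ^ a k * t ^ b k =
        ((c ^ D)⁻¹) ^ X.w k * (u.2 k * (c * s) ^ a k * (c * t) ^ b k)
      have e : (c ^ D) ^ X.w k = c ^ a k * c ^ b k := by rw [← pow_mul, ← hab k, pow_add]
      rw [inv_pow, e, mul_pow, mul_pow]
      have e1 := pow_ne_zero (a k) hc
      have e2 := pow_ne_zero (b k) hc
      field_simp
  let f : ℂ → (Fin (n + 1) → ℂ) × (Fin r → ℂ) := fun z =>
    if z ∈ L.lattice then H κ 0 else H (κ * ℘[L] z) 1
  have hf0 : ∀ z, z ∈ L.lattice → f z = H κ 0 := fun z hz => if_pos hz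
  have hf1 : ∀ z, z ∉ L.lattice → f z = H (κ * ℘[L] z) 1 := fun z hz => if_neg hz
  have hHan : ∀ (s t : ℂ → ℂ) (z : ℂ), AnalyticAt ℂ s z → AnalyticAt ℂ t z →
      AnalyticAt ℂ (fun w => H (s w) (t w)) z := by
    intro s t z hs ht
    refine AnalyticAt.prod ?_ ?_
    · rw [analyticAt_pi_iff]
      intro j
      change AnalyticAt ℂ (fun w => s w ^ N * x1 j + t w ^ N * x2 j) z
      exact ((hs.fun_pow N).fun_mul analyticAt_const).fun_add
        ((ht.fun_pow N).fun_mul analyticAt_const)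
    · rw [analyticAt_pi_iff]
      intro k
      change AnalyticAt ℂ (fun w => u.2 k * s w ^ a k * t w ^ b k) z
      exact (analyticAt_const.fun_mul (hs.fun_pow _)).fun_mul (ht.fun_pow _)
  have hper : ∀ l ∈ L.lattice, ∀ z, f (z + l) = f z := by
    intro l hl z
    have h5 : z + l ∈ L.lattice ↔ z ∈ L.lattice := by
      constructor
      · intro h
        have := L.lattice.sub_mem h hl
        rwa [add_sub_cancel_right] at this
      · intro h
        exact L.lattice.add_mem h hl
    by_cases hz : z ∈ L.lattice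
    · rw [hf0 _ hz, hf0 _ (h5.2 hz)]
    · rw [hf1 _ hz, hf1 _ (fun h => hz (h5.1 h)), L.weierstrassP_add_coe z ⟨l, hl⟩]
  refine ⟨L.ω₁, L.ω₂, f, L.indep, ⟨fun z => ?_, fun z => ?_, fun z => ?_, fun z => ?_⟩, ?_,
    z0, ?_⟩
  · by_cases hz : z ∈ L.lattice
    · rw [hf0 _ hz]
      exact hHmem κ 0 (Or.inl hκ0)
    · rw [hf1 _ hz]
      exact hHmem _ 1 (Or.inr one_ne_zero)
  · by_cases hz : z ∈ L.lattice
    · let a' : ℂ → ℂ := fun w => (w - z) ^ 2
      let c : ℂ → ℂ := fun w => (w - z) ^ 2 * ℘[L - z] w + 1 - (w - z) ^ 2 / z ^ 2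
      have ha : AnalyticAt ℂ a' z := by
        change AnalyticAt ℂ (fun w => (w - z) ^ 2) z
        fun_prop
      have hc : AnalyticAt ℂ c z := by
        have h1 : AnalyticAt ℂ ℘[L - z] z := L.analyticAt_weierstrassPExcept z
        have h2 : AnalyticAt ℂ (fun w : ℂ => (w - z) ^ 2 / z ^ 2) z := by
          have : AnalyticAt ℂ (fun w : ℂ => (w - z) ^ 2 * (z ^ 2)⁻¹) z := by fun_prop
          simpa only [div_eq_mul_inv] using this
        change AnalyticAt ℂ (fun w => (w - z) ^ 2 * ℘[L - z] w + 1 - (w - z) ^ 2 / z ^ 2) z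
        fun_prop
      refine ⟨fun w => H (κ * c w) (a' w), hHan (fun w => κ * c w) a' z
        (analyticAt_const.fun_mul hc) ha, ?_⟩
      filter_upwards [L.compl_lattice_sdiff_singleton_mem_nhds z] with w hw
      by_cases hwz : w = z
      · subst hwz
        have h1 : a' w = 0 := by simp [a']
        have h2 : c w = 1 := by simp [c]
        rw [h1, h2, mul_one, hf0 _ hz]
        exact same_refl _
      · have hwL : w ∉ L.lattice := fun h => hw ⟨h, hwz⟩
        have h1 : a' w ≠ 0 := pow_ne_zero 2 (sub_ne_zero.mpr hwz)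
        have h2 : c w = a' w * ℘[L] w := by
          have := L.ite_eq_one_sub_sq_mul_weierstrassP z hz w
          rw [if_neg hwz] at this
          exact this.symm
        have e : κ * c w = a' w * (κ * ℘[L] w) := by
          rw [h2]
          ring
        rw [hf1 _ hwL, e]
        have h3 := hHs (a' w) (κ * ℘[L] w) 1 h1
        rwa [mul_one] at h3
    · refine ⟨fun w => H (κ * ℘[L] w) 1, hHan (fun w => κ * ℘[L] w) _ z
        (analyticAt_const.fun_mul (L.analyticOnNhd_weierstrassP z hz)) analyticAt_const, ?_⟩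
      have hopen : ((L.lattice : Set ℂ)ᶜ) ∈ 𝓝 z := L.isClosed_lattice.isOpen_compl.mem_nhds hz
      filter_upwards [hopen] with w hw
      rw [hf1 _ hw]
      exact same_refl _
  · rw [hper _ L.ω₁_mem_lattice]
    exact same_refl _
  · rw [hper _ L.ω₂_mem_lattice]
    exact same_refl _
  · by_contra hcon
    push Not at hcon
    have hval : ∀ w, w ∉ L.lattice → (κ * ℘[L] w) ^ N = (κ * ℘[L] z0) ^ N := by
      intro w hw
      obtain ⟨t, -, ht, -⟩ := hcon z0 w
      rw [hf1 _ hz0, hf1 _ hw] at ht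
      have h5 := congrArg ψ ht
      have h6 := congrArg φ ht
      rw [map_smul, hψH, hψH, one_pow, smul_eq_mul, mul_one] at h5
      rw [map_smul, hφH, hφH, ← h5, one_smul] at h6
      exact h6
    apply Pool.Agent.TH182.TC.infinite_range L
    have hfin : ((Polynomial.X ^ N - Polynomial.C (℘[L] z0 ^ N) : Polynomial ℂ).roots.toFinset :
        Set ℂ).Finite := Finset.finite_toSet _
    refine hfin.subset ?_
    rintro _ ⟨w, hw, rfl⟩
    have hne : (Polynomial.X ^ N - Polynomial.C (℘[L] z0 ^ N) : Polynomial ℂ) ≠ 0 :=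
      Polynomial.X_pow_sub_C_ne_zero hBN _
    rw [Finset.mem_coe, Multiset.mem_toFinset, Polynomial.mem_roots hne, Polynomial.IsRoot.def,
      Polynomial.eval_sub, Polynomial.eval_pow, Polynomial.eval_X, Polynomial.eval_C, sub_eq_zero]
    have h5 := hval w hw
    rw [mul_pow, mul_pow] at h5
    exact mul_left_cancel₀ (pow_ne_zero N hκ0) h5
  · rw [hf1 _ hz0, hκ, inv_mul_cancel₀ hpz0, hH1]

/-- All nonconstant holomorphic maps from one-dimensional complex tori to `X` have their images in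
the closed set given by the weighted homogeneous polynomials in `Z`. -/
def TorusIn (X : Cover n q r) (Z : Set (Poly n r)) : Prop :=
  ∀ w1 w2 : ℂ, LinearIndependent ℝ ![w1, w2] → ∀ f, TorusMap X w1 w2 f →
    (∃ z w, ¬ X.Same (f z) (f w)) → ∀ G ∈ Z, ∀ z, ev (f z) G = 0

/-- All entire curves in `X` lie in the closed set given by the weighted homogeneous polynomials
in `Z`. -/
def CurvesIn (X : Cover n q r) (Z : Set (Poly n r)) : Prop :=
  ∀ x y, X.EntireCurve x y → ∀ G ∈ Z, ∀ z, ev (x z, y z) G = 0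

theorem TorusIn.curves (hB : Big X) {Z : Set (Poly n r)} (hZ : ∀ G ∈ Z, X.Hom G)
    (h : TorusIn X Z) : CurvesIn X Z := by
  intro x y hxy G hG z
  have h1 : (x z, y z) ∈ X.SpH := ⟨hxy.mem z, fun G' _ hE => hE x y hxy z⟩
  refine (spH_sub hB h1).2 G (hZ G hG) fun u hu => ?_
  obtain ⟨w1, w2, f, hw, hf, hne, z1, hz1⟩ := torus_of_split hu
  rw [← hz1]
  exact h w1 w2 hw f hf hne G hG z1

/-- If all holomorphic maps from one-dimensional complex tori to `X` are constant, then `X` has no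
split point. -/
theorem EllRigid.no_split (hX : EllRigid X) (u : (Fin (n + 1) → ℂ) × (Fin r → ℂ)) :
    ¬ X.Split u := by
  intro hu
  obtain ⟨w1, w2, f, hw, hf, ⟨z, w, hne⟩, -⟩ := torus_of_split hu
  exact hne (hX w1 w2 hw f hf z w)

end Pool.Agent.TH152.CV
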